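import Pool.Agent.Run7.h178.TF.Junc
import Pool.Agent.R800.BT.Step

/-! Bigons between the circles of the triple points. -/

namespace Pool.Agent.Run7.H178.TF

open Pool.Agent.Y468.SR
open Pool.Agent.Y874.TP (colour NullV Tri TC Cyc word4 passes_append' sep mem_code)
open Pool.Agent.Y874.TP2
open Pool.Agent.Y759.TP2 (part_mem part_invol)
open Pool.Agent.R800.BT (Hts)

/-- the names of the crossings on the three double curves through the triple point -/
def strand (T : Tri) (s : Fin 3) : List ℕ :=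
  if s = 0 then [T.a₁, T.a₂] else if s = 1 then [T.b₁, T.b₂] else [T.c₁, T.c₂]

/-- the colours of the three double curves through the triple point -/
def cl (T : Tri) (s : Fin 3) : ℕ :=
  if s = 0 then colour T.a₁ else if s = 1 then colour T.b₁ else colour T.c₁

/-- the orientation of the triple point -/
def eps (T : Tri) : Bool := xor (xor T.ei T.ej) T.ek

/-- the passages which can follow one another on a circle -/
def adj (s : Fin 3) (l : Bool) (t : Fin 3) (k : Bool) : Bool :=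
  [((0 : Fin 3), true, (1 : Fin 3), true), (1, true, 0, true), (0, false, 2, true),
    (2, true, 0, false), (1, false, 2, false), (2, false, 1, false)].contains (s, l, t, k)

theorem six {T : Tri} (hok : T.Ok) (ht : Hts T) {W : List Pass} (hW : W ∈ [T.wi, T.wj, T.wk])
    {p q : Pass} (h : Cyc p q W) : ∃ s t : Fin 3, adj s p.isOver t q.isOver = true ∧
      p.crossing ∈ strand T s ∧ q.crossing ∈ strand T t ∧
      (p.isPos == q.isPos) = xor (decide (s < t)) (eps T) := by
  obtain ⟨a₁, a₂, b₁, b₂, c₁, c₂, ta, tb, tc, sa, sb, sc, ei, ej, ek, li, lj, lk⟩ := T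
  simp only [Tri.Ok, Hts] at hok ht
  obtain ⟨rfl, rfl, rfl⟩ := ht
  simp only [List.mem_cons, List.not_mem_nil, or_false, Tri.wi, Tri.wj, Tri.wk, Tri.pa₁, Tri.pa₂,
    Tri.pb₁, Tri.pb₂, Tri.pc₁, Tri.pc₂, Pass.mate, word4] at hW
  rcases hW with rfl | rfl | rfl
  · cases ei
    · simp only [Bool.false_eq_true, if_false] at h
      rcases Tri.cyc4 h with ⟨rfl, rfl⟩ | ⟨rfl, rfl⟩ | ⟨rfl, rfl⟩ | ⟨rfl, rfl⟩
      · refine ⟨0, 1, rfl, by simp [strand], by simp [strand], ?_⟩
        simp only [eps]; revert hok; clear h; revert sa sb sc ej ek; decide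
      · refine ⟨1, 0, rfl, by simp [strand], by simp [strand], ?_⟩
        simp only [eps]; revert hok; clear h; revert sa sb sc ej ek; decide
      · refine ⟨0, 1, rfl, by simp [strand], by simp [strand], ?_⟩
        simp only [eps]; revert hok; clear h; revert sa sb sc ej ek; decide
      · refine ⟨1, 0, rfl, by simp [strand], by simp [strand], ?_⟩
        simp only [eps]; revert hok; clear h; revert sa sb sc ej ek; decide
    · simp only [if_true] at h
      rcases Tri.cyc4 h with ⟨rfl, rfl⟩ | ⟨rfl, rfl⟩ | ⟨rfl, rfl⟩ | ⟨rfl, rfl⟩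
      · refine ⟨1, 0, rfl, by simp [strand], by simp [strand], ?_⟩
        simp only [eps]; revert hok; clear h; revert sa sb sc ej ek; decide
      · refine ⟨0, 1, rfl, by simp [strand], by simp [strand], ?_⟩
        simp only [eps]; revert hok; clear h; revert sa sb sc ej ek; decide
      · refine ⟨1, 0, rfl, by simp [strand], by simp [strand], ?_⟩
        simp only [eps]; revert hok; clear h; revert sa sb sc ej ek; decide
      · refine ⟨0, 1, rfl, by simp [strand], by simp [strand], ?_⟩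
        simp only [eps]; revert hok; clear h; revert sa sb sc ej ek; decide
  · cases ej
    · simp only [Bool.false_eq_true, if_false] at h
      rcases Tri.cyc4 h with ⟨rfl, rfl⟩ | ⟨rfl, rfl⟩ | ⟨rfl, rfl⟩ | ⟨rfl, rfl⟩
      · refine ⟨0, 2, rfl, by simp [strand], by simp [strand], ?_⟩
        simp only [eps]; revert hok; clear h; revert sa sb sc ei ek; decide
      · refine ⟨2, 0, rfl, by simp [strand], by simp [strand], ?_⟩
        simp only [eps]; revert hok; clear h; revert sa sb sc ei ek; decide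
      · refine ⟨0, 2, rfl, by simp [strand], by simp [strand], ?_⟩
        simp only [eps]; revert hok; clear h; revert sa sb sc ei ek; decide
      · refine ⟨2, 0, rfl, by simp [strand], by simp [strand], ?_⟩
        simp only [eps]; revert hok; clear h; revert sa sb sc ei ek; decide
    · simp only [if_true] at h
      rcases Tri.cyc4 h with ⟨rfl, rfl⟩ | ⟨rfl, rfl⟩ | ⟨rfl, rfl⟩ | ⟨rfl, rfl⟩
      · refine ⟨2, 0, rfl, by simp [strand], by simp [strand], ?_⟩
        simp only [eps]; revert hok; clear h; revert sa sb sc ei ek; decide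
      · refine ⟨0, 2, rfl, by simp [strand], by simp [strand], ?_⟩
        simp only [eps]; revert hok; clear h; revert sa sb sc ei ek; decide
      · refine ⟨2, 0, rfl, by simp [strand], by simp [strand], ?_⟩
        simp only [eps]; revert hok; clear h; revert sa sb sc ei ek; decide
      · refine ⟨0, 2, rfl, by simp [strand], by simp [strand], ?_⟩
        simp only [eps]; revert hok; clear h; revert sa sb sc ei ek; decide
  · cases ek
    · simp only [Bool.false_eq_true, if_false] at h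
      rcases Tri.cyc4 h with ⟨rfl, rfl⟩ | ⟨rfl, rfl⟩ | ⟨rfl, rfl⟩ | ⟨rfl, rfl⟩
      · refine ⟨1, 2, rfl, by simp [strand], by simp [strand], ?_⟩
        simp only [eps]; revert hok; clear h; revert sa sb sc ei ej; decide
      · refine ⟨2, 1, rfl, by simp [strand], by simp [strand], ?_⟩
        simp only [eps]; revert hok; clear h; revert sa sb sc ei ej; decide
      · refine ⟨1, 2, rfl, by simp [strand], by simp [strand], ?_⟩
        simp only [eps]; revert hok; clear h; revert sa sb sc ei ej; decide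
      · refine ⟨2, 1, rfl, by simp [strand], by simp [strand], ?_⟩
        simp only [eps]; revert hok; clear h; revert sa sb sc ei ej; decide
    · simp only [if_true] at h
      rcases Tri.cyc4 h with ⟨rfl, rfl⟩ | ⟨rfl, rfl⟩ | ⟨rfl, rfl⟩ | ⟨rfl, rfl⟩
      · refine ⟨2, 1, rfl, by simp [strand], by simp [strand], ?_⟩
        simp only [eps]; revert hok; clear h; revert sa sb sc ei ej; decide
      · refine ⟨1, 2, rfl, by simp [strand], by simp [strand], ?_⟩
        simp only [eps]; revert hok; clear h; revert sa sb sc ei ej; decide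
      · refine ⟨2, 1, rfl, by simp [strand], by simp [strand], ?_⟩
        simp only [eps]; revert hok; clear h; revert sa sb sc ei ej; decide
      · refine ⟨1, 2, rfl, by simp [strand], by simp [strand], ?_⟩
        simp only [eps]; revert hok; clear h; revert sa sb sc ei ej; decide

/-- two triple points of opposite orientations joined by two of the three double curves -/
structure Jn (T T' : Tri) (m : ℕ → ℕ) : Prop where
  eps : eps T' = !eps T
  jn : ∃ s t : Fin 3, s ≠ t ∧ cl T' s = cl T s ∧ cl T' t = cl T t ∧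
    (∃ c ∈ strand T s, m c ∈ strand T' s ∧ m c ≠ c) ∧
    (∃ c ∈ strand T t, m c ∈ strand T' t ∧ m c ≠ c)

theorem adj_cases {s t : Fin 3} {l k : Bool} (h : adj s l t k = true) :
    (s = 0 ∧ l = true ∧ t = 1 ∧ k = true) ∨ (s = 1 ∧ l = true ∧ t = 0 ∧ k = true) ∨
    (s = 0 ∧ l = false ∧ t = 2 ∧ k = true) ∨ (s = 2 ∧ l = true ∧ t = 0 ∧ k = false) ∨
    (s = 1 ∧ l = false ∧ t = 2 ∧ k = false) ∨ (s = 2 ∧ l = false ∧ t = 1 ∧ k = false) := by
  unfold adj at h
  simpa only [List.contains_eq_mem, List.mem_cons, Prod.mk.injEq, List.not_mem_nil, or_false,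
    decide_eq_true_eq] using h

theorem fin_case (s t s' t' : Fin 3) (l k a b : Bool) : adj s l t k = true →
    adj t' (xor k b) s' (xor l a) = true →
    (a = true → s' = s) → (b = true → t' = t) →
    (a = false ∧ b = false ∧ s' = s ∧ t' = t) ∨
    (a = false ∧ b = false ∧ s' = t ∧ t' = s ∧ (s = 0 ∧ t = 1 ∨ s = 1 ∧ t = 0 ∨ s = 1 ∧ t = 2 ∨
      s = 2 ∧ t = 1)) ∨
    (a = true ∧ b = false ∧ (t = 0 ∧ t' = 1 ∨ t = 1 ∧ t' = 0 ∨ t = 1 ∧ t' = 2 ∨ t = 2 ∧ t' = 1)) ∨
    (a = false ∧ b = true ∧ (s = 0 ∧ s' = 1 ∨ s = 1 ∧ s' = 0 ∨ s = 1 ∧ s' = 2 ∨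
      s = 2 ∧ s' = 1)) := by
  intro h1 h2 h3 h4
  rcases adj_cases h1 with ⟨rfl, rfl, rfl, rfl⟩ | ⟨rfl, rfl, rfl, rfl⟩ | ⟨rfl, rfl, rfl, rfl⟩ |
    ⟨rfl, rfl, rfl, rfl⟩ | ⟨rfl, rfl, rfl, rfl⟩ | ⟨rfl, rfl, rfl, rfl⟩ <;>
  rcases adj_cases h2 with ⟨rfl, e1, rfl, e2⟩ | ⟨rfl, e1, rfl, e2⟩ | ⟨rfl, e1, rfl, e2⟩ |
    ⟨rfl, e1, rfl, e2⟩ | ⟨rfl, e1, rfl, e2⟩ | ⟨rfl, e1, rfl, e2⟩ <;>
  cases a <;> cases b <;> simp at e1 e2 h3 h4 ⊢

theorem col_strand {T : Tri} (hc : T.Col) {s : Fin 3} {c : ℕ} (h : c ∈ strand T s) :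
    colour c = cl T s := by
  obtain ⟨h1, h2, h3⟩ := hc
  unfold strand at h
  unfold cl
  split_ifs at h ⊢ <;> simp only [List.mem_cons, List.not_mem_nil, or_false] at h <;>
    rcases h with rfl | rfl <;> first | rfl | assumption

theorem strand_names {T : Tri} {s : Fin 3} {c : ℕ} (h : c ∈ strand T s) : c ∈ T.names := by
  unfold strand at h
  unfold Tri.names
  split_ifs at h <;> simp only [List.mem_cons, List.not_mem_nil, or_false] at h ⊢ <;> tauto

theorem strand_uniq {T : Tri} (hn : [T.a₁, T.a₂, T.b₁, T.b₂, T.c₁, T.c₂].Nodup) {s t : Fin 3}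
    {c : ℕ} (h : c ∈ strand T s) (h' : c ∈ strand T t) : t = s := by
  simp only [List.nodup_cons, List.mem_cons, List.not_mem_nil, or_false, not_or] at hn
  unfold strand at h h'
  fin_cases s <;> fin_cases t <;> simp at h h' ⊢ <;> grind

theorem names_code {T : Tri} {c : ℕ} (h : c ∈ T.names) : ∃ p ∈ passes T.code, p.crossing = c := by
  simp only [Tri.names, List.mem_cons, List.not_mem_nil, or_false] at h
  simp only [mem_code]
  rcases h with rfl | rfl | rfl | rfl | rfl | rfl
  · exact ⟨T.pa₁, by simp, rfl⟩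
  · exact ⟨T.pa₂, by simp, rfl⟩
  · exact ⟨T.pb₁, by simp, rfl⟩
  · exact ⟨T.pb₂, by simp, rfl⟩
  · exact ⟨T.pc₁, by simp, rfl⟩
  · exact ⟨T.pc₂, by simp, rfl⟩

theorem perm_D {D : Code} {l₁ l₂ : List Tri} {T : Tri} :
    (D ++ TC (l₁ ++ T :: l₂)).Perm (T.code ++ (D ++ TC (l₁ ++ l₂))) :=
  Pool.Agent.R800.BT.perm_TC

/-- different triple points have different names -/
theorem tri_uniq {D : Code} {Ts : List Tri} (hW : WF (passes (D ++ TC Ts))) {T T' : Tri}
    (hT : T ∈ Ts) (hT' : T' ∈ Ts) {c : ℕ} (h : c ∈ T.names) (h' : c ∈ T'.names) : T' = T := by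
  by_contra hne
  obtain ⟨l₁, l₂, rfl⟩ := List.append_of_mem hT
  have hT'' : T' ∈ l₁ ++ l₂ := by
    simp only [List.mem_append, List.mem_cons] at hT' ⊢
    tauto
  have hw := WF.perm (passes_perm perm_D) hW
  rw [passes_append'] at hw
  obtain ⟨p, hp, rfl⟩ := names_code h
  obtain ⟨q, hq, h1⟩ := Pool.Agent.Y874.TP.exists_pass hT'' h'
  refine hw.ne_crossing hp (Pool.Agent.R800.BT.mate_code hp) (q := q) ?_ h1
  rw [passes_append']
  exact List.mem_append_right _ hq

theorem nodup_tri {D : Code} {Ts : List Tri} (hW : WF (passes (D ++ TC Ts))) {T : Tri}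
    (hT : T ∈ Ts) (ht : Hts T) : [T.a₁, T.a₂, T.b₁, T.b₂, T.c₁, T.c₂].Nodup := by
  refine Pool.Agent.R800.BT.names_nodup ?_ ht
  obtain ⟨l₁, l₂, rfl⟩ := List.append_of_mem hT
  have := (WF.perm (passes_perm perm_D) hW).2
  rw [passes_append', List.map_append] at this
  exact (List.nodup_append.1 this).1

theorem bip_ne {F : ℕ × Bool → Bool} {T : Tri} (ht : Hts T) (h : Bip F T) :
    cl T 0 ≠ cl T 1 ∧ cl T 1 ≠ cl T 2 := by
  obtain ⟨t1, t2, t3⟩ := ht
  obtain ⟨h1, -, h3⟩ := h
  constructor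
  · intro e
    have e' : colour T.a₁ = colour T.b₁ := e
    apply h1
    unfold kap lc Tri.pa₁ Tri.pb₁
    simp only [e', t1, t2]
  · intro e
    have e' : colour T.b₁ = colour T.c₁ := e
    apply h3
    unfold kap lc Tri.pb₁ Tri.pc₁ Pass.mate
    simp only [e', t2, t3]

theorem part_cr {m : ℕ → ℕ} {p : Pass} : (part m p).crossing = m p.crossing := by
  unfold part
  split_ifs with h
  · exact h.symm
  · rfl

theorem part_over {m : ℕ → ℕ} {p : Pass} :
    (part m p).isOver = xor p.isOver (decide (m p.crossing = p.crossing)) := by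
  unfold part
  split_ifs with h
  · simp [Pass.mate, h]
  · simp [h]

/-- a bigon between two circles joins two triple points -/
theorem bigon {F : ℕ × Bool → Bool} {D : Code} {Ts : List Tri} {m : ℕ → ℕ}
    (hW : WF (passes (D ++ TC Ts))) (hI : InvM (D ++ TC Ts) m)
    (hok : ∀ T ∈ Ts, T.Ok ∧ T.Col ∧ Hts T) (hF : ∀ T ∈ Ts, Bip F T)
    (hsw : ∀ T ∈ Ts, ∀ T' ∈ Ts, ¬(cl T' 0 = cl T 1 ∧ cl T' 1 = cl T 0) ∧
      ¬(cl T' 1 = cl T 2 ∧ cl T' 2 = cl T 1))
    {C C' : List Pass × ℕ} (hC : C ∈ TC Ts) (hC' : C' ∈ TC Ts) {p q : Pass} (h : Cyc p q C.1)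
    (h' : Cyc (part m q) (part m p) C'.1) : ∃ T ∈ Ts, ∃ T' ∈ Ts, Jn T T' m := by
  obtain ⟨T, hT, hW1⟩ := word_of_mem hC
  obtain ⟨T', hT', hW2⟩ := word_of_mem hC'
  obtain ⟨s, t, e1, e2, e3, e4⟩ := six (hok T hT).1 (hok T hT).2.2 hW1 h
  obtain ⟨t', s', f1, f2, f3, f4⟩ := six (hok T' hT').1 (hok T' hT').2.2 hW2 h'
  have hpq : p ∈ passes (D ++ TC Ts) ∧ q ∈ passes (D ++ TC Ts) := by
    have : p ∈ C.1 ∧ q ∈ C.1 := by
      rcases h with ⟨u, v, h⟩ | ⟨u, h⟩ <;> rw [h] <;> simp
    rw [passes_append']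
    exact ⟨List.mem_append_right _ (mem_passes.2 ⟨C, hC, this.1⟩),
      List.mem_append_right _ (mem_passes.2 ⟨C, hC, this.2⟩)⟩
  rw [part_cr] at f2 f3
  have colp : cl T' s' = cl T s := by
    rw [← col_strand (hok T' hT').2.1 f3, ← col_strand (hok T hT).2.1 e2]
    exact (hI.2.1 p hpq.1).1
  have colq : cl T' t' = cl T t := by
    rw [← col_strand (hok T' hT').2.1 f2, ← col_strand (hok T hT).2.1 e3]
    exact (hI.2.1 q hpq.2).1
  have hself : ∀ (r : Pass) (i j : Fin 3), r.crossing ∈ strand T i → m r.crossing ∈ strand T' j →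
      m r.crossing = r.crossing → T' = T ∧ j = i := by
    intro r i j h1 h2 h3
    rw [h3] at h2
    have e := tri_uniq hW hT hT' (strand_names h1) (strand_names h2)
    subst e
    exact ⟨rfl, strand_uniq (nodup_tri hW hT (hok _ hT).2.2) h1 h2⟩
  rw [part_over, part_over] at f1
  obtain ⟨n1, n2⟩ := bip_ne (hok T hT).2.2 (hF T hT)
  rcases fin_case s t s' t' p.isOver q.isOver (decide (m p.crossing = p.crossing))
    (decide (m q.crossing = q.crossing)) e1 f1
    (fun h => (hself p s s' e2 f3 (of_decide_eq_true h)).2)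
    (fun h => (hself q t t' e3 f2 (of_decide_eq_true h)).2) with
    ⟨ha, hb, rfl, rfl⟩ | ⟨ha, hb, rfl, rfl, hc⟩ | ⟨ha, hb, hc⟩ | ⟨ha, hb, hc⟩
  · have ha' := of_decide_eq_false ha
    have hb' := of_decide_eq_false hb
    have hst : s' ≠ t' := by
      rintro rfl
      rcases adj_cases e1 with h | h | h | h | h | h <;>
        exact absurd (h.1.symm.trans h.2.2.1) (by decide)
    refine ⟨T, hT, T', hT', ?_, s', t', hst, colp, colq, ⟨_, e2, f3, ha'⟩, ⟨_, e3, f2, hb'⟩⟩
    have g1 : (part m p).isPos = !p.isPos := by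
      unfold part; rw [if_neg ha']
    have g2 : (part m q).isPos = !q.isPos := by
      unfold part; rw [if_neg hb']
    rw [g1, g2] at f4
    have hlt : decide (t' < s') = !decide (s' < t') := by
      rcases lt_trichotomy s' t' with h | h | h
      · simp [h, not_lt_of_gt h]
      · exact absurd h hst
      · simp [h, not_lt_of_gt h]
    rw [hlt] at f4
    revert e4 f4
    generalize decide (s' < t') = x
    generalize eps T = y
    generalize eps T' = z
    generalize p.isPos = a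
    generalize q.isPos = b
    revert x y z a b
    decide
  · exfalso
    obtain ⟨k1, k2⟩ := hsw T hT T' hT'
    rcases hc with ⟨rfl, rfl⟩ | ⟨rfl, rfl⟩ | ⟨rfl, rfl⟩ | ⟨rfl, rfl⟩
    · exact k1 ⟨colq, colp⟩
    · exact k1 ⟨colp, colq⟩
    · exact k2 ⟨colq, colp⟩
    · exact k2 ⟨colp, colq⟩
  · exfalso
    obtain ⟨rfl, -⟩ := hself p s s' e2 f3 (of_decide_eq_true ha)
    rcases hc with ⟨rfl, rfl⟩ | ⟨rfl, rfl⟩ | ⟨rfl, rfl⟩ | ⟨rfl, rfl⟩
    · exact n1 colq.symm
    · exact n1 colq
    · exact n2 colq.symm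
    · exact n2 colq
  · exfalso
    obtain ⟨rfl, -⟩ := hself q t t' e3 f2 (of_decide_eq_true hb)
    rcases hc with ⟨rfl, rfl⟩ | ⟨rfl, rfl⟩ | ⟨rfl, rfl⟩ | ⟨rfl, rfl⟩
    · exact n1 colp.symm
    · exact n1 colp
    · exact n2 colp.symm
    · exact n2 colp

end Pool.Agent.Run7.H178.TF
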