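import Pool.Agent.Run7.h178.TF.Rem2

/-! Removing two triple points joined by two double curves: the cases. -/

namespace Pool.Agent.Run7.H178.TF

open Pool.Agent.R800.BT (Mt Vd Tr)

variable {S : Set ℕ} {m : ℕ → ℕ} {σ : ℕ → Bool} {χ : ℕ → ℕ} {e : Bool}
  {x x' y y' z z' X X' Y Y' Z Z' : ℕ}

theorem tr_iff {G : Type} [Group G] {o u : ℕ → G} : Tr e o u x x' y y' z z' ↔
    TrV e (o x) (u x) (o x') (u x') (o y) (u y) (o y') (u y') (o z) (u z) (o z') (u z') := Iff.rfl

theorem prL_swap : (prL x' x y' y z' z X' X Y' Y Z' Z).Perm (prL x x' y y' z z' X X' Y Y' Z Z') := by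
  unfold prL
  rw [List.perm_iff_count]
  intro a
  simp only [List.count_cons, List.count_nil]
  omega

theorem Dat2.swap (h : Dat2 S m σ χ x x' y y' z z' X X' Y Y' Z Z') :
    Dat2 S m σ χ x' x y' y z' z X' X Y' Y Z' Z where
  me := h.me
  nd := (nms_perm prL_swap).nodup_iff.2 h.nd
  pr := fun q hq => h.pr q (prL_swap.mem_iff.1 hq)

theorem Rem2.swap (h : Rem2 S m σ χ e x' x y' y z' z X' X Y' Y Z' Z) :
    Rem2 S m σ χ e x x' y y' z z' X X' Y Y' Z Z' := by
  have hmem : ∀ c, c ∈ nms (prL x' x y' y z' z X' X Y' Y Z' Z) ↔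
      c ∈ nms (prL x x' y y' z z' X X' Y Y' Z Z') := fun c => (nms_perm prL_swap).mem_iff
  obtain ⟨m', h1, h2⟩ := h
  simp only [hmem] at h1 h2
  refine ⟨m', h1, fun G _ o u hv => ?_⟩
  obtain ⟨o', u', v, w, t1, t2⟩ := h2 G o u hv
  exact ⟨o', u', v, w, t1.swap, t2.swap⟩

theorem rem_xy (h : Dat2 S m σ χ x x' y y' z z' X X' Y Y' Z Z') (hP : m x = X') (hQ : m y = Y') :
    Rem2 S m σ χ e x x' y y' z z' X X' Y Y' Z Z' := by
  have hnd := h.nd
  simp only [prL, nms, List.nodup_cons, List.mem_cons, List.not_mem_nil, or_false, not_or,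
    not_false_eq_true, List.nodup_nil, and_true] at hnd
  refine rem2_of h (P := (x, X')) (Q := (y, Y')) (L := [(x', X), (y', Y), (z, Z'), (z', Z)]) ?_ hP hQ
    fun G _ o₂ u₂ => ?_
  · unfold prL
    rw [List.perm_iff_count]
    intro a
    simp only [List.count_cons, List.count_nil]
    omega
  · obtain ⟨α, β, γ, δ, k⟩ := solve_xy e (o₂ x') (u₂ x') (o₂ y') (u₂ y') (o₂ z) (u₂ z) (o₂ z') (u₂ z')
    refine ⟨α, β, γ, δ, fun o' u' w a b c d => ?_⟩
    simp only at a b c d w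
    obtain ⟨e1, e2⟩ := w x' (by grind) (by grind) (by grind) (by grind)
    obtain ⟨e3, e4⟩ := w y' (by grind) (by grind) (by grind) (by grind)
    obtain ⟨e5, e6⟩ := w z (by grind) (by grind) (by grind) (by grind)
    obtain ⟨e7, e8⟩ := w z' (by grind) (by grind) (by grind) (by grind)
    rw [tr_iff, a, b, c, d, e1, e2, e3, e4, e5, e6, e7, e8]
    exact k

theorem rem_xy' (h : Dat2 S m σ χ x x' y y' z z' X X' Y Y' Z Z') (hP : m x = X') (hQ : m y' = Y) :
    Rem2 S m σ χ e x x' y y' z z' X X' Y Y' Z Z' := by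
  have hnd := h.nd
  simp only [prL, nms, List.nodup_cons, List.mem_cons, List.not_mem_nil, or_false, not_or,
    not_false_eq_true, List.nodup_nil, and_true] at hnd
  refine rem2_of h (P := (x, X')) (Q := (y', Y)) (L := [(x', X), (y, Y'), (z, Z'), (z', Z)]) ?_ hP hQ
    fun G _ o₂ u₂ => ?_
  · unfold prL
    rw [List.perm_iff_count]
    intro a
    simp only [List.count_cons, List.count_nil]
    omega
  · obtain ⟨α, β, γ, δ, k⟩ := solve_xy' e (o₂ x') (u₂ x') (o₂ y) (u₂ y) (o₂ z) (u₂ z) (o₂ z') (u₂ z')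
    refine ⟨α, β, γ, δ, fun o' u' w a b c d => ?_⟩
    simp only at a b c d w
    obtain ⟨e1, e2⟩ := w x' (by grind) (by grind) (by grind) (by grind)
    obtain ⟨e3, e4⟩ := w y (by grind) (by grind) (by grind) (by grind)
    obtain ⟨e5, e6⟩ := w z (by grind) (by grind) (by grind) (by grind)
    obtain ⟨e7, e8⟩ := w z' (by grind) (by grind) (by grind) (by grind)
    rw [tr_iff, a, b, c, d, e1, e2, e3, e4, e5, e6, e7, e8]
    exact k

theorem rem_xz (h : Dat2 S m σ χ x x' y y' z z' X X' Y Y' Z Z') (hP : m x = X') (hQ : m z = Z') :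
    Rem2 S m σ χ e x x' y y' z z' X X' Y Y' Z Z' := by
  have hnd := h.nd
  simp only [prL, nms, List.nodup_cons, List.mem_cons, List.not_mem_nil, or_false, not_or,
    not_false_eq_true, List.nodup_nil, and_true] at hnd
  refine rem2_of h (P := (x, X')) (Q := (z, Z')) (L := [(x', X), (y, Y'), (y', Y), (z', Z)]) ?_ hP hQ
    fun G _ o₂ u₂ => ?_
  · unfold prL
    rw [List.perm_iff_count]
    intro a
    simp only [List.count_cons, List.count_nil]
    omega
  · obtain ⟨α, β, γ, δ, k⟩ := solve_xz e (o₂ x') (u₂ x') (o₂ y) (u₂ y) (o₂ y') (u₂ y') (o₂ z') (u₂ z')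
    refine ⟨α, β, γ, δ, fun o' u' w a b c d => ?_⟩
    simp only at a b c d w
    obtain ⟨e1, e2⟩ := w x' (by grind) (by grind) (by grind) (by grind)
    obtain ⟨e3, e4⟩ := w y (by grind) (by grind) (by grind) (by grind)
    obtain ⟨e5, e6⟩ := w y' (by grind) (by grind) (by grind) (by grind)
    obtain ⟨e7, e8⟩ := w z' (by grind) (by grind) (by grind) (by grind)
    rw [tr_iff, a, b, c, d, e1, e2, e3, e4, e5, e6, e7, e8]
    exact k

theorem rem_xz' (h : Dat2 S m σ χ x x' y y' z z' X X' Y Y' Z Z') (hP : m x = X') (hQ : m z' = Z) :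
    Rem2 S m σ χ e x x' y y' z z' X X' Y Y' Z Z' := by
  have hnd := h.nd
  simp only [prL, nms, List.nodup_cons, List.mem_cons, List.not_mem_nil, or_false, not_or,
    not_false_eq_true, List.nodup_nil, and_true] at hnd
  refine rem2_of h (P := (x, X')) (Q := (z', Z)) (L := [(x', X), (y, Y'), (y', Y), (z, Z')]) ?_ hP hQ
    fun G _ o₂ u₂ => ?_
  · unfold prL
    rw [List.perm_iff_count]
    intro a
    simp only [List.count_cons, List.count_nil]
    omega
  · obtain ⟨α, β, γ, δ, k⟩ := solve_xz' e (o₂ x') (u₂ x') (o₂ y) (u₂ y) (o₂ y') (u₂ y') (o₂ z) (u₂ z)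
    refine ⟨α, β, γ, δ, fun o' u' w a b c d => ?_⟩
    simp only at a b c d w
    obtain ⟨e1, e2⟩ := w x' (by grind) (by grind) (by grind) (by grind)
    obtain ⟨e3, e4⟩ := w y (by grind) (by grind) (by grind) (by grind)
    obtain ⟨e5, e6⟩ := w y' (by grind) (by grind) (by grind) (by grind)
    obtain ⟨e7, e8⟩ := w z (by grind) (by grind) (by grind) (by grind)
    rw [tr_iff, a, b, c, d, e1, e2, e3, e4, e5, e6, e7, e8]
    exact k

theorem rem_yz (h : Dat2 S m σ χ x x' y y' z z' X X' Y Y' Z Z') (hP : m y = Y') (hQ : m z = Z') :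
    Rem2 S m σ χ e x x' y y' z z' X X' Y Y' Z Z' := by
  have hnd := h.nd
  simp only [prL, nms, List.nodup_cons, List.mem_cons, List.not_mem_nil, or_false, not_or,
    not_false_eq_true, List.nodup_nil, and_true] at hnd
  refine rem2_of h (P := (y, Y')) (Q := (z, Z')) (L := [(x, X'), (x', X), (y', Y), (z', Z)]) ?_ hP hQ
    fun G _ o₂ u₂ => ?_
  · unfold prL
    rw [List.perm_iff_count]
    intro a
    simp only [List.count_cons, List.count_nil]
    omega
  · obtain ⟨α, β, γ, δ, k⟩ := solve_yz e (o₂ x) (u₂ x) (o₂ x') (u₂ x') (o₂ y') (u₂ y') (o₂ z') (u₂ z')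
    refine ⟨α, β, γ, δ, fun o' u' w a b c d => ?_⟩
    simp only at a b c d w
    obtain ⟨e1, e2⟩ := w x (by grind) (by grind) (by grind) (by grind)
    obtain ⟨e3, e4⟩ := w x' (by grind) (by grind) (by grind) (by grind)
    obtain ⟨e5, e6⟩ := w y' (by grind) (by grind) (by grind) (by grind)
    obtain ⟨e7, e8⟩ := w z' (by grind) (by grind) (by grind) (by grind)
    rw [tr_iff, a, b, c, d, e1, e2, e3, e4, e5, e6, e7, e8]
    exact k

theorem rem_yz' (h : Dat2 S m σ χ x x' y y' z z' X X' Y Y' Z Z') (hP : m y = Y') (hQ : m z' = Z) :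
    Rem2 S m σ χ e x x' y y' z z' X X' Y Y' Z Z' := by
  have hnd := h.nd
  simp only [prL, nms, List.nodup_cons, List.mem_cons, List.not_mem_nil, or_false, not_or,
    not_false_eq_true, List.nodup_nil, and_true] at hnd
  refine rem2_of h (P := (y, Y')) (Q := (z', Z)) (L := [(x, X'), (x', X), (y', Y), (z, Z')]) ?_ hP hQ
    fun G _ o₂ u₂ => ?_
  · unfold prL
    rw [List.perm_iff_count]
    intro a
    simp only [List.count_cons, List.count_nil]
    omega
  · obtain ⟨α, β, γ, δ, k⟩ := solve_yz' e (o₂ x) (u₂ x) (o₂ x') (u₂ x') (o₂ y') (u₂ y') (o₂ z) (u₂ z)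
    refine ⟨α, β, γ, δ, fun o' u' w a b c d => ?_⟩
    simp only at a b c d w
    obtain ⟨e1, e2⟩ := w x (by grind) (by grind) (by grind) (by grind)
    obtain ⟨e3, e4⟩ := w x' (by grind) (by grind) (by grind) (by grind)
    obtain ⟨e5, e6⟩ := w y' (by grind) (by grind) (by grind) (by grind)
    obtain ⟨e7, e8⟩ := w z (by grind) (by grind) (by grind) (by grind)
    rw [tr_iff, a, b, c, d, e1, e2, e3, e4, e5, e6, e7, e8]
    exact k

/-- two triple points joined by two of the three double curves can be removed -/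
theorem rem2 (h : Dat2 S m σ χ x x' y y' z z' X X' Y Y' Z Z')
    (hj : ((m x = X' ∨ m x' = X) ∧ (m y = Y' ∨ m y' = Y)) ∨
      ((m x = X' ∨ m x' = X) ∧ (m z = Z' ∨ m z' = Z)) ∨
      ((m y = Y' ∨ m y' = Y) ∧ (m z = Z' ∨ m z' = Z))) :
    Rem2 S m σ χ e x x' y y' z z' X X' Y Y' Z Z' := by
  rcases hj with ⟨h1 | h1, h2 | h2⟩ | ⟨h1 | h1, h2 | h2⟩ | ⟨h1 | h1, h2 | h2⟩
  · exact rem_xy h h1 h2
  · exact rem_xy' h h1 h2
  · exact Rem2.swap (rem_xy' h.swap h1 h2)
  · exact Rem2.swap (rem_xy h.swap h1 h2)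
  · exact rem_xz h h1 h2
  · exact rem_xz' h h1 h2
  · exact Rem2.swap (rem_xz' h.swap h1 h2)
  · exact Rem2.swap (rem_xz h.swap h1 h2)
  · exact rem_yz h h1 h2
  · exact rem_yz' h h1 h2
  · exact Rem2.swap (rem_yz' h.swap h1 h2)
  · exact Rem2.swap (rem_yz h.swap h1 h2)

end Pool.Agent.Run7.H178.TF
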