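import Pool.Agent.Run7.h178.TF.Bigon
import Pool.Agent.Run7.h178.TF.Rem2b

/-! Removing two triple points joined by two double curves. -/

namespace Pool.Agent.Run7.H178.TF

open Pool.Agent.Y468.SR
open Pool.Agent.Y874.TP (colour NullV Tri TC Cyc word4 passes_append' sep mem_code CEq)
open Pool.Agent.Y874.TP2
open Pool.Agent.R800.BT (Hts Mt Vd Tr Nm Cr mt_of matching_of vd_iff cn_drop bv_one nm_code cr_diff
  tr_wval names_nodup exists_sign mate_code ok_signs)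

/-- another description of the same circles -/
structure Nrm (T T₀ : Tri) : Prop where
  ceq : CEq T.code T₀.code
  ok : T.Ok → T₀.Ok
  col : T.Col → T₀.Col
  ht : Hts T → Hts T₀
  st : ∀ s c, c ∈ strand T₀ s ↔ c ∈ strand T s
  ep : eps T₀ = eps T
  cl : T.Col → ∀ s, cl T₀ s = cl T s

theorem Nrm.refl (T : Tri) : Nrm T T :=
  ⟨CEq.refl _, id, id, id, fun _ _ => Iff.rfl, rfl, fun _ _ => rfl⟩

theorem Nrm.trans {T T' T'' : Tri} (h : Nrm T T') (h' : Nrm T' T'') : Nrm T T'' :=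
  ⟨h.ceq.trans h'.ceq, fun k => h'.ok (h.ok k), fun k => h'.col (h.col k),
    fun k => h'.ht (h.ht k), fun s c => (h'.st s c).trans (h.st s c), h'.ep.trans h.ep,
    fun k s => (h'.cl (h.col k) s).trans (h.cl k s)⟩

theorem nrm_swapA (T : Tri) : Nrm T T.swapA where
  ceq := (Tri.tr_swapA T).ceq
  ok := (Tri.tr_swapA T).ok
  col := (Tri.tr_swapA T).col
  ht := id
  st := by
    intro s c
    unfold strand Tri.swapA
    fin_cases s <;> simp [or_comm]
  ep := by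
    unfold eps Tri.swapA
    simp
  cl := by
    rintro ⟨h1, h2, h3⟩ s
    unfold cl Tri.swapA
    fin_cases s <;> simp [h1]

theorem nrm_swapB (T : Tri) : Nrm T T.swapB where
  ceq := (Tri.tr_swapB T).ceq
  ok := (Tri.tr_swapB T).ok
  col := (Tri.tr_swapB T).col
  ht := id
  st := by
    intro s c
    unfold strand Tri.swapB
    fin_cases s <;> simp [or_comm]
  ep := by
    unfold eps Tri.swapB
    simp
  cl := by
    rintro ⟨h1, h2, h3⟩ s
    unfold cl Tri.swapB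
    fin_cases s <;> simp [h2]

theorem exists_nrm (T : Tri) : ∃ T₀, Nrm T T₀ ∧ T₀.ei = T₀.ej ∧ T₀.ek = T₀.ei := by
  by_cases h1 : T.ei = T.ej
  · by_cases h2 : T.ek = T.ei
    · exact ⟨T, Nrm.refl T, h1, h2⟩
    · refine ⟨T.swapA, nrm_swapA T, ?_, ?_⟩ <;> simp only [Tri.swapA]
      · rw [h1]
      · cases h3 : T.ek <;> cases h4 : T.ei <;> simp_all
  · by_cases h2 : T.ek = T.ei
    · refine ⟨T.swapB, nrm_swapB T, ?_, ?_⟩ <;> simp only [Tri.swapB]
      · cases h3 : T.ei <;> cases h4 : T.ej <;> simp_all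
      · rw [h2]
    · refine ⟨T.swapA.swapB, (nrm_swapA T).trans (nrm_swapB _), ?_, ?_⟩ <;>
        simp only [Tri.swapA, Tri.swapB]
      · cases h3 : T.ei <;> cases h4 : T.ej <;> simp_all
      · cases h3 : T.ei <;> cases h4 : T.ek <;> simp_all

theorem join_of {σ : ℕ → Bool} {m : ℕ → ℕ} {x x' X X' : ℕ} {K K' : List ℕ}
    (hK : ∀ c, c ∈ K ↔ c = x ∨ c = x') (hK' : ∀ c, c ∈ K' ↔ c = X ∨ c = X')
    (hσ : ∀ c ∈ K, m c ≠ c → σ (m c) = !σ c) (h1 : σ x' = !σ x) (h2 : σ X' = !σ x)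
    (h3 : σ X = !σ x') (h : ∃ c ∈ K, m c ∈ K' ∧ m c ≠ c) : m x = X' ∨ m x' = X := by
  obtain ⟨c, hc, hc', hne⟩ := h
  have h4 := hσ c hc hne
  rcases (hK c).1 hc with rfl | rfl <;> rcases (hK' _).1 hc' with h5 | h5
  · exfalso
    rw [h5, h3, h1] at h4
    cases h6 : σ c <;> simp [h6] at h4
  · exact Or.inl h5
  · exact Or.inr h5
  · exfalso
    rw [h5, h2, h1] at h4
    cases h6 : σ x <;> simp [h6] at h4

theorem nms_prL (x x' y y' z z' X X' Y Y' Z Z' : ℕ) :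
    (nms (prL x x' y y' z z' X X' Y Y' Z Z')).Perm
      ([x, x', y, y', z, z'] ++ [X, X', Y, Y', Z, Z']) := by
  unfold prL nms nms nms nms nms nms nms
  rw [List.perm_iff_count]
  intro a
  simp only [List.count_cons, List.count_nil, List.cons_append, List.nil_append]
  omega

/-- the removal of two triple points, when the names of the second one are given in the right order -/
theorem drop_core {T T' : Tri} {E : Code} {m : ℕ → ℕ} {e : Bool} {σ : ℕ → Bool}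
    {X X' Y Y' Z Z' : ℕ}
    (hw : WF (passes (T.code ++ (T'.code ++ E)))) (hI : InvM (T.code ++ (T'.code ++ E)) m)
    (hσ : ∀ p ∈ passes (T.code ++ (T'.code ++ E)), σ p.crossing = p.isPos)
    (hok : T.Ok) (hok' : T'.Ok) (ht : Hts T) (ht' : Hts T') (hc : T.Col) (hc' : T'.Col)
    (he : T.ei = e ∧ T.ej = e ∧ T.ek = e) (he' : T'.ei = !e ∧ T'.ej = !e ∧ T'.ek = !e)
    (hcl : ∀ s, cl T' s = cl T s)
    (hX : ([X, X'] : List ℕ).Perm [T'.a₁, T'.a₂]) (hY : ([Y, Y'] : List ℕ).Perm [T'.b₁, T'.b₂])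
    (hZ : ([Z, Z'] : List ℕ).Perm [T'.c₁, T'.c₂])
    (hs : σ X' = !σ T.a₁ ∧ σ X = !σ T.a₂ ∧ σ Y' = !σ T.b₁ ∧ σ Y = !σ T.b₂ ∧ σ Z' = !σ T.c₁ ∧
      σ Z = !σ T.c₂)
    (htr : ∀ (G : Type) [Group G] (o u : ℕ → G), Tr (!e) o u X X' Y Y' Z Z' →
      Tr (!e) o u T'.a₁ T'.a₂ T'.b₁ T'.b₂ T'.c₁ T'.c₂)
    (hj : ∃ s t : Fin 3, s ≠ t ∧ (∃ c ∈ strand T s, m c ∈ strand T' s ∧ m c ≠ c) ∧
      (∃ c ∈ strand T t, m c ∈ strand T' t ∧ m c ≠ c)) :
    ∃ m', InvM E m' := by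
  obtain ⟨s1, s2⟩ := ok_signs hok ht he
  have hmem : ∀ p ∈ passes T.code, p ∈ passes (T.code ++ (T'.code ++ E)) := by
    intro p hp; rw [passes_append']; simp [hp]
  have hmem' : ∀ p ∈ passes T'.code, p ∈ passes (T.code ++ (T'.code ++ E)) := by
    intro p hp; rw [passes_append', passes_append']; simp [hp]
  have v1 : σ T.a₁ = !T.sa := hσ _ (hmem T.pa₁ (by rw [mem_code]; simp))
  have v2 : σ T.a₂ = T.sa := hσ _ (hmem T.pa₂ (by rw [mem_code]; simp))
  have v3 : σ T.b₁ = !T.sb := hσ _ (hmem T.pb₁ (by rw [mem_code]; simp))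
  have v4 : σ T.b₂ = T.sb := hσ _ (hmem T.pb₂ (by rw [mem_code]; simp))
  have v5 : σ T.c₁ = !T.sc := hσ _ (hmem T.pc₁ (by rw [mem_code]; simp))
  have v6 : σ T.c₂ = T.sc := hσ _ (hmem T.pc₂ (by rw [mem_code]; simp))
  have hcrT : ∀ c ∈ T.names, c ∈ Cr (passes (T.code ++ (T'.code ++ E))) := by
    intro c hc
    obtain ⟨p, hp, rfl⟩ := names_code hc
    exact ⟨p, hmem p hp, rfl⟩
  have hcrT' : ∀ c ∈ T'.names, c ∈ Cr (passes (T.code ++ (T'.code ++ E))) := by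
    intro c hc
    obtain ⟨p, hp, rfl⟩ := names_code hc
    exact ⟨p, hmem' p hp, rfl⟩
  have hme : ME (Cr (passes (T.code ++ (T'.code ++ E)))) m σ colour := by
    refine ⟨mt_of hσ hI.1 fun p hp => (hI.2.1 p hp).1, ?_⟩
    rintro c ⟨p, hp, rfl⟩ h
    by_contra h1
    exact (hI.2.1 p hp).2 h1 h
  have hw' : WF (passes (T'.code ++ E)) := by
    have := hw
    rw [passes_append'] at this
    exact this.remove fun p hp => mate_code hp
  have nT : [T.a₁, T.a₂, T.b₁, T.b₂, T.c₁, T.c₂].Nodup := by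
    refine names_nodup ?_ ht
    have := hw.2
    rw [passes_append', List.map_append] at this
    exact (List.nodup_append.1 this).1
  have nT' : [T'.a₁, T'.a₂, T'.b₁, T'.b₂, T'.c₁, T'.c₂].Nodup := by
    refine names_nodup ?_ ht'
    have := hw'.2
    rw [passes_append', List.map_append] at this
    exact (List.nodup_append.1 this).1
  have hperm : ([X, X', Y, Y', Z, Z'] : List ℕ).Perm
      [T'.a₁, T'.a₂, T'.b₁, T'.b₂, T'.c₁, T'.c₂] := by
    have := (hX.append hY).append hZ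
    simpa using this
  have hnm : ∀ c, c ∈ nms (prL T.a₁ T.a₂ T.b₁ T.b₂ T.c₁ T.c₂ X X' Y Y' Z Z') ↔
      c ∈ T.names ∨ c ∈ T'.names := by
    intro c
    rw [(nms_prL _ _ _ _ _ _ _ _ _ _ _ _).mem_iff, List.mem_append, hperm.mem_iff]
    rfl
  have hd : Dat2 (Cr (passes (T.code ++ (T'.code ++ E)))) m σ colour T.a₁ T.a₂ T.b₁ T.b₂ T.c₁ T.c₂
      X X' Y Y' Z Z' := by
    refine ⟨hme, ?_, ?_⟩
    · rw [(nms_prL _ _ _ _ _ _ _ _ _ _ _ _).nodup_iff, List.nodup_append]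
      refine ⟨nT, (hperm.nodup_iff).2 nT', fun a ha b hb hab => ?_⟩
      subst hab
      rw [hperm.mem_iff] at hb
      obtain ⟨p, hp, rfl⟩ := names_code (T := T) ha
      obtain ⟨q, hq, h1⟩ := names_code (T := T') hb
      rw [passes_append'] at hw
      refine hw.ne_crossing hp (mate_code hp) (q := q) ?_ h1
      rw [passes_append']
      exact List.mem_append_left _ hq
    · have k0 : ∀ c, c = X ∨ c = X' → c ∈ T'.names ∧ colour c = cl T 0 := by
        intro c h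
        have h1 : c ∈ strand T' 0 := hX.mem_iff.1 (by simpa using h)
        exact ⟨strand_names h1, (col_strand hc' h1).trans (hcl 0)⟩
      have k1 : ∀ c, c = Y ∨ c = Y' → c ∈ T'.names ∧ colour c = cl T 1 := by
        intro c h
        have h1 : c ∈ strand T' 1 := hY.mem_iff.1 (by simpa using h)
        exact ⟨strand_names h1, (col_strand hc' h1).trans (hcl 1)⟩
      have k2 : ∀ c, c = Z ∨ c = Z' → c ∈ T'.names ∧ colour c = cl T 2 := by
        intro c h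
        have h1 : c ∈ strand T' 2 := hZ.mem_iff.1 (by simpa using h)
        exact ⟨strand_names h1, (col_strand hc' h1).trans (hcl 2)⟩
      obtain ⟨c1, c2, c3⟩ := hc
      obtain ⟨g1, g2, g3, g4, g5, g6⟩ := hs
      intro q hq
      simp only [prL, List.mem_cons, List.not_mem_nil, or_false] at hq
      rcases hq with rfl | rfl | rfl | rfl | rfl | rfl
      · exact ⟨hcrT _ (by simp [Tri.names]), hcrT' _ (k0 X' (Or.inr rfl)).1, g1,
          (k0 X' (Or.inr rfl)).2⟩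
      · exact ⟨hcrT _ (by simp [Tri.names]), hcrT' _ (k0 X (Or.inl rfl)).1, g2,
          (k0 X (Or.inl rfl)).2.trans c1.symm⟩
      · exact ⟨hcrT _ (by simp [Tri.names]), hcrT' _ (k1 Y' (Or.inr rfl)).1, g3,
          (k1 Y' (Or.inr rfl)).2⟩
      · exact ⟨hcrT _ (by simp [Tri.names]), hcrT' _ (k1 Y (Or.inl rfl)).1, g4,
          (k1 Y (Or.inl rfl)).2.trans c2.symm⟩
      · exact ⟨hcrT _ (by simp [Tri.names]), hcrT' _ (k2 Z' (Or.inr rfl)).1, g5,
          (k2 Z' (Or.inr rfl)).2⟩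
      · exact ⟨hcrT _ (by simp [Tri.names]), hcrT' _ (k2 Z (Or.inl rfl)).1, g6,
          (k2 Z (Or.inl rfl)).2.trans c3.symm⟩
  have hsg : ∀ s, ∀ c ∈ strand T s, m c ≠ c → σ (m c) = !σ c := fun s c hc h =>
    (hme.1 c (hcrT c (strand_names hc))).2.2.1 h
  have j0 : (∃ c ∈ strand T 0, m c ∈ strand T' 0 ∧ m c ≠ c) → m T.a₁ = X' ∨ m T.a₂ = X :=
    join_of (fun c => by simp [strand]) (fun c => by
      rw [show strand T' 0 = [T'.a₁, T'.a₂] from rfl, ← hX.mem_iff]; simp) (hsg 0)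
      (by rw [v1, v2, Bool.not_not]) hs.1 hs.2.1
  have j1 : (∃ c ∈ strand T 1, m c ∈ strand T' 1 ∧ m c ≠ c) → m T.b₁ = Y' ∨ m T.b₂ = Y :=
    join_of (fun c => by simp [strand]) (fun c => by
      rw [show strand T' 1 = [T'.b₁, T'.b₂] from rfl, ← hY.mem_iff]; simp) (hsg 1)
      (by rw [v3, v4, Bool.not_not]) hs.2.2.1 hs.2.2.2.1
  have j2 : (∃ c ∈ strand T 2, m c ∈ strand T' 2 ∧ m c ≠ c) → m T.c₁ = Z' ∨ m T.c₂ = Z :=
    join_of (fun c => by simp [strand]) (fun c => by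
      rw [show strand T' 2 = [T'.c₁, T'.c₂] from rfl, ← hZ.mem_iff]; simp) (hsg 2)
      (by rw [v5, v6, Bool.not_not]) hs.2.2.2.2.1 hs.2.2.2.2.2
  have hj' : ((m T.a₁ = X' ∨ m T.a₂ = X) ∧ (m T.b₁ = Y' ∨ m T.b₂ = Y)) ∨
      ((m T.a₁ = X' ∨ m T.a₂ = X) ∧ (m T.c₁ = Z' ∨ m T.c₂ = Z)) ∨
      ((m T.b₁ = Y' ∨ m T.b₂ = Y) ∧ (m T.c₁ = Z' ∨ m T.c₂ = Z)) := by
    obtain ⟨s, t, hst, h1, h2⟩ := hj
    fin_cases s <;> fin_cases t
    · exact absurd rfl hst
    · exact Or.inl ⟨j0 h1, j1 h2⟩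
    · exact Or.inr (Or.inl ⟨j0 h1, j2 h2⟩)
    · exact Or.inl ⟨j0 h2, j1 h1⟩
    · exact absurd rfl hst
    · exact Or.inr (Or.inr ⟨j1 h1, j2 h2⟩)
    · exact Or.inr (Or.inl ⟨j0 h2, j2 h1⟩)
    · exact Or.inr (Or.inr ⟨j1 h2, j2 h1⟩)
    · exact absurd rfl hst
  obtain ⟨m', h1, h2⟩ := rem2 (e := e) hd hj'
  have hS : {c | c ∈ Cr (passes (T.code ++ (T'.code ++ E))) ∧
      c ∉ nms (prL T.a₁ T.a₂ T.b₁ T.b₂ T.c₁ T.c₂ X X' Y Y' Z Z')} = Cr (passes E) := by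
    have a1 : ∀ (U : Tri) (c : ℕ), c ∈ Nm U.a₁ U.a₂ U.b₁ U.b₂ U.c₁ U.c₂ ↔ c ∈ U.names := by
      intro U c
      simp only [Nm, Tri.names, Set.mem_insert_iff, Set.mem_singleton_iff, List.mem_cons,
        List.not_mem_nil, or_false]
    rw [← cr_diff hw', ← cr_diff hw]
    ext c
    rw [Set.mem_ofPred_eq, hnm, Set.mem_sdiff, Set.mem_sdiff, a1, a1, and_assoc, not_or]
  rw [hS] at h1 h2
  have hmE : ∀ p ∈ passes E, p ∈ passes (T.code ++ (T'.code ++ E)) := by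
    intro p hp; rw [passes_append', passes_append']; simp [hp]
  obtain ⟨k1, k2⟩ := matching_of (fun p hp => hσ p (hmE p hp)) h1.1
  refine ⟨m', k1, fun p hp => ⟨k2 p hp, fun h3 h4 => h3 (h1.2 _ ⟨p, hp, rfl⟩ h4)⟩,
    fun G _ o u hv b => ?_⟩
  obtain ⟨o', u', w1, w2, w3, w4⟩ := h2 G o u (vd_iff.2 hv)
  have h3 := hI.2.2 G o' u' (vd_iff.1 w1) b
  rw [vals_append, vals_append, bv_append, bv_append] at h3
  have h4 := cn_drop (bv_one (tr_wval ht he w3) b) h3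
  have h5 := cn_drop (bv_one (tr_wval ht' he' (htr G o' u' w4)) b) h4
  have h6 : vals o' u' E = vals o u E := by
    unfold vals
    refine List.map_congr_left fun C hC => ?_
    refine Prod.ext ?_ rfl
    refine wval_congr fun r hr => ?_
    have hr' : r ∈ passes E := mem_passes.2 ⟨C, hC, hr⟩
    have h6 : r.crossing ∉ nms (prL T.a₁ T.a₂ T.b₁ T.b₂ T.c₁ T.c₂ X X' Y Y' Z Z') := by
      have : r.crossing ∈ Cr (passes E) := ⟨r, hr', rfl⟩
      rw [← hS] at this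
      exact this.2
    obtain ⟨e1, e2⟩ := w2 _ h6
    unfold val
    rw [e1, e2]
  rwa [h6] at h5

end Pool.Agent.Run7.H178.TF
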