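import Pool.Agent.Run7.h178.TF.Drop2

/-! Removing two triple points joined by two double curves: general position of the names. -/

namespace Pool.Agent.Run7.H178.TF

open Pool.Agent.Y468.SR
open Pool.Agent.Y874.TP (colour NullV Tri TC Cyc word4 passes_append' sep mem_code CEq wf_ceq)
open Pool.Agent.Y874.TP2
open Pool.Agent.R800.BT (Hts Mt Vd Tr Nm Cr mt_of matching_of vd_iff cn_drop bv_one nm_code cr_diff
  tr_wval names_nodup exists_sign mate_code ok_signs)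

theorem eps_norm {T : Tri} (h1 : T.ei = T.ej) (h2 : T.ek = T.ei) : eps T = T.ei := by
  unfold eps
  rw [← h1, h2]
  cases T.ei <;> rfl

theorem drop2 {T T' : Tri} {E : Code} {m : ℕ → ℕ}
    (hw : WF (passes (T.code ++ (T'.code ++ E)))) (hI : InvM (T.code ++ (T'.code ++ E)) m)
    (hok : T.Ok) (hok' : T'.Ok) (ht : Hts T) (ht' : Hts T') (hc : T.Col) (hc' : T'.Col)
    (hcl : ∀ s, cl T' s = cl T s) (hj : Jn T T' m) : ∃ m', InvM E m' := by
  obtain ⟨S, n1, s1, s2⟩ := exists_nrm T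
  obtain ⟨S', n2, s3, s4⟩ := exists_nrm T'
  have w1 : WF (passes (S.code ++ (T'.code ++ E))) := wf_ceq (D := []) n1.ceq hw
  have i1 : InvM (S.code ++ (T'.code ++ E)) m := invM_ceq (D := []) n1.ceq hI
  have w2 : WF (passes (S.code ++ (S'.code ++ E))) := wf_ceq n2.ceq w1
  have i2 : InvM (S.code ++ (S'.code ++ E)) m := invM_ceq n2.ceq i1
  obtain ⟨σ, hσ⟩ := exists_sign w2
  have he : S'.ei = !S.ei := by
    rw [← eps_norm s1 s2, ← eps_norm s3 s4, n1.ep, n2.ep, hj.eps]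
  have hmem : ∀ p ∈ passes S.code, p ∈ passes (S.code ++ (S'.code ++ E)) := by
    intro p hp; rw [passes_append']; simp [hp]
  have hmem' : ∀ p ∈ passes S'.code, p ∈ passes (S.code ++ (S'.code ++ E)) := by
    intro p hp; rw [passes_append', passes_append']; simp [hp]
  have v1 : σ S.a₁ = !S.sa := hσ _ (hmem S.pa₁ (by rw [mem_code]; simp))
  have v2 : σ S.a₂ = S.sa := hσ _ (hmem S.pa₂ (by rw [mem_code]; simp))
  have v3 : σ S.b₁ = !S.sb := hσ _ (hmem S.pb₁ (by rw [mem_code]; simp))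
  have v4 : σ S.b₂ = S.sb := hσ _ (hmem S.pb₂ (by rw [mem_code]; simp))
  have v5 : σ S.c₁ = !S.sc := hσ _ (hmem S.pc₁ (by rw [mem_code]; simp))
  have v6 : σ S.c₂ = S.sc := hσ _ (hmem S.pc₂ (by rw [mem_code]; simp))
  have x1 : σ S'.a₁ = !S'.sa := hσ _ (hmem' S'.pa₁ (by rw [mem_code]; simp))
  have x2 : σ S'.a₂ = S'.sa := hσ _ (hmem' S'.pa₂ (by rw [mem_code]; simp))
  have x3 : σ S'.b₁ = !S'.sb := hσ _ (hmem' S'.pb₁ (by rw [mem_code]; simp))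
  have x4 : σ S'.b₂ = S'.sb := hσ _ (hmem' S'.pb₂ (by rw [mem_code]; simp))
  have x5 : σ S'.c₁ = !S'.sc := hσ _ (hmem' S'.pc₁ (by rw [mem_code]; simp))
  have x6 : σ S'.c₂ = S'.sc := hσ _ (hmem' S'.pc₂ (by rw [mem_code]; simp))
  obtain ⟨g1, g2⟩ := ok_signs (n1.ok hok) (n1.ht ht) (e := S.ei) ⟨rfl, s1.symm, s2⟩
  obtain ⟨g3, g4⟩ := ok_signs (n2.ok hok') (n2.ht ht') (e := !S.ei)
    ⟨he, by rw [← s3, he], by rw [s4, he]⟩
  have hcl' : ∀ s, cl S' s = cl S s := fun s => by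
    rw [n1.cl hc s, n2.cl hc' s, hcl s]
  have hj' : ∃ s t : Fin 3, s ≠ t ∧ (∃ c ∈ strand S s, m c ∈ strand S' s ∧ m c ≠ c) ∧
      (∃ c ∈ strand S t, m c ∈ strand S' t ∧ m c ≠ c) := by
    obtain ⟨-, s, t, hst, -, -, ⟨c, k1, k2, k3⟩, c', k4, k5, k6⟩ := hj
    exact ⟨s, t, hst, ⟨c, (n1.st s c).2 k1, (n2.st s _).2 k2, k3⟩,
      ⟨c', (n1.st t c').2 k4, (n2.st t _).2 k5, k6⟩⟩
  by_cases hsa : S'.sa = S.sa
  · refine drop_core (X := S'.a₁) (X' := S'.a₂) (Y := S'.b₁) (Y' := S'.b₂) (Z := S'.c₁)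
      (Z' := S'.c₂) w2 i2 hσ (n1.ok hok) (n2.ok hok') (n1.ht ht) (n2.ht ht') (n1.col hc)
      (n2.col hc') (e := S.ei) ⟨rfl, s1.symm, s2⟩ ⟨he, by rw [← s3, he], by rw [s4, he]⟩ hcl'
      (List.Perm.refl _) (List.Perm.refl _) (List.Perm.refl _) ?_ (fun G _ o u h => h) hj'
    rw [x1, x2, x3, x4, x5, x6, v1, v2, v3, v4, v5, v6, g1, g2, g3, g4, hsa]
    simp
  · refine drop_core (X := S'.a₂) (X' := S'.a₁) (Y := S'.b₂) (Y' := S'.b₁) (Z := S'.c₂)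
      (Z' := S'.c₁) w2 i2 hσ (n1.ok hok) (n2.ok hok') (n1.ht ht) (n2.ht ht') (n1.col hc)
      (n2.col hc') (e := S.ei) ⟨rfl, s1.symm, s2⟩ ⟨he, by rw [← s3, he], by rw [s4, he]⟩ hcl'
      (List.Perm.swap _ _ _) (List.Perm.swap _ _ _) (List.Perm.swap _ _ _) ?_
      (fun G _ o u h => h.swap) hj'
    have hsa' : S'.sa = !S.sa := by
      cases h1 : S'.sa <;> cases h2 : S.sa <;> simp_all
    rw [x1, x2, x3, x4, x5, x6, v1, v2, v3, v4, v5, v6, g1, g2, g3, g4, hsa']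
    simp

/-- two triple points in a list -/
theorem perm_two {D : Code} {Ts : List Tri} {T T' : Tri} (hT : T ∈ Ts) (hT' : T' ∈ Ts)
    (hne : T' ≠ T) : ∃ Ts' : List Tri, Ts.Perm (T :: T' :: Ts') ∧
      (D ++ TC Ts).Perm (T.code ++ (T'.code ++ (D ++ TC Ts'))) := by
  obtain ⟨l₁, l₂, rfl⟩ := List.append_of_mem hT
  have hT'' : T' ∈ l₁ ++ l₂ := by
    simp only [List.mem_append, List.mem_cons] at hT' ⊢
    tauto
  obtain ⟨k₁, k₂, e⟩ := List.append_of_mem hT''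
  refine ⟨k₁ ++ k₂, ?_, ?_⟩
  · refine List.perm_middle.trans ((List.Perm.cons T ?_))
    rw [e]
    exact List.perm_middle
  · refine perm_D.trans (List.Perm.append_left _ ?_)
    rw [e]
    exact perm_D

end Pool.Agent.Run7.H178.TF
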