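import Pool.Agent.R800.BT.Elim

/-! Removing names from a matching, keeping the parity of the classes of the fixed names. -/

namespace Pool.Agent.Run7.H178.TF

open Pool.Agent.R800.BT (Mt Vd elim_free2)

/-- a sign-reversing involution keeping the classes, whose fixed names have even classes -/
def ME (S : Set ℕ) (m : ℕ → ℕ) (σ : ℕ → Bool) (χ : ℕ → ℕ) : Prop :=
  Mt S m σ χ ∧ ∀ c ∈ S, m c = c → χ c % 2 = 0

variable {S : Set ℕ} {m : ℕ → ℕ} {σ : ℕ → Bool} {χ : ℕ → ℕ}

theorem elim_pairE {a a' : ℕ} (h : ME S m σ χ) (ha : a ∈ S) (ha' : a' ∈ S) (hne : a ≠ a')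
    (hs : σ a' = !σ a) (hx : χ a' = χ a) :
    ∃ m', ME (S \ {a, a'}) m' σ χ ∧ ∀ (G : Type) [Group G] (o u : ℕ → G),
      Vd (S \ {a, a'}) m' o u → ∃ o' u' : ℕ → G, Vd S m o' u' ∧
        (∀ c, c ≠ a → c ≠ a' → o' c = o c ∧ u' c = u c) ∧
        o' a' = (o' a)⁻¹ ∧ u' a' = (u' a)⁻¹ := by
  classical
  obtain ⟨h, hE⟩ := h
  obtain ⟨k1, k2, k3, k4⟩ := h a ha
  obtain ⟨l1, l2, l3, l4⟩ := h a' ha'
  have key : ∀ c, c ∈ S \ {a, a'} → c ∈ S ∧ c ≠ a ∧ c ≠ a' := by
    rintro c ⟨h1, h2⟩
    simp only [Set.mem_insert_iff, Set.mem_singleton_iff, not_or] at h2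
    exact ⟨h1, h2.1, h2.2⟩
  have mem : ∀ c, c ∈ S → c ≠ a → c ≠ a' → c ∈ S \ {a, a'} := by
    intro c h1 h2 h3
    exact ⟨h1, by simp [h2, h3]⟩
  refine ⟨fun c => if m c = a then (if m a' = a' then c else m a') else
    if m c = a' then (if m a = a then c else m a) else m c, ⟨?_, ?_⟩, ?_⟩
  · intro c hc0
    obtain ⟨hc, c1, c2⟩ := key c hc0
    obtain ⟨h1, h2, h3, h4⟩ := h c hc
    by_cases h5 : m c = a
    · have e : m a = c := by rw [← h5, h2]
      simp only [h5, if_true]
      by_cases h6 : m a' = a'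
      · simp only [h6, if_true, h5]
        refine ⟨hc0, ?_, ?_, ?_⟩ <;> simp
      · simp only [h6, if_false]
        have h7 : m a' ≠ a := fun h7 => c2 (by rw [← e, ← h7, l2])
        rw [l2, if_neg (Ne.symm hne), if_pos rfl, if_neg (by rw [e]; exact c1)]
        refine ⟨mem _ l1 h7 h6, e, fun _ => ?_, ?_⟩
        · rw [l3 h6, hs, Bool.not_not]
          have := k3 (by rw [e]; exact c1)
          rw [e] at this
          rw [this, Bool.not_not]
        · rw [l4, hx, ← k4, e]
    · simp only [h5, if_false]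
      by_cases h8 : m c = a'
      · have e : m a' = c := by rw [← h8, h2]
        simp only [h8, if_true]
        by_cases h6 : m a = a
        · simp only [h6, if_true, h8]
          rw [if_neg (Ne.symm hne)]
          refine ⟨hc0, ?_, ?_, ?_⟩ <;> simp
        · simp only [h6, if_false]
          have h7 : m a ≠ a' := fun h7 => c1 (by rw [← e, ← h7, k2])
          rw [k2, if_pos rfl, if_neg (by rw [e]; exact c2)]
          refine ⟨mem _ k1 h6 h7, e, fun _ => ?_, ?_⟩
          · rw [k3 h6]
            have := l3 (by rw [e]; exact c2)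
            rw [e, hs, Bool.not_not] at this
            rw [this]
          · rw [k4, ← hx, ← l4, e]
      · simp only [h8, if_false]
        rw [h2, if_neg c1, if_neg c2]
        exact ⟨mem _ h1 h5 h8, rfl, h3, h4⟩
  · intro c hc0
    obtain ⟨hc, c1, c2⟩ := key c hc0
    obtain ⟨h1, h2, h3, h4⟩ := h c hc
    by_cases h5 : m c = a
    · have e : m a = c := by rw [← h5, h2]
      simp only [h5, if_true]
      by_cases h6 : m a' = a'
      · intro _
        have := hE a' ha' h6
        rw [← h4, h5, ← hx]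
        exact this
      · rw [if_neg h6]
        intro h7
        exact absurd (by rw [← l2, h7, h5]) (Ne.symm hne)
    · simp only [h5, if_false]
      by_cases h8 : m c = a'
      · simp only [h8, if_true]
        by_cases h6 : m a = a
        · intro _
          have := hE a ha h6
          rw [← h4, h8, hx]
          exact this
        · rw [if_neg h6]
          intro h7
          exact absurd (by rw [← k2, h7, h8]) hne
      · simp only [h8, if_false]
        exact hE c hc
  · intro G _ o u hv
    set α : (ℕ → G) → G := fun f => if m a ≠ a ∧ m a ≠ a' then (f (m a))⁻¹ else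
      if m a' ≠ a' ∧ m a' ≠ a then f (m a') else 1 with hα
    have fact : ∀ c, c ∈ S → c ≠ a → c ≠ a' → m c = a → (m a' = a' → u c = (o c)⁻¹) ∧
        (m a' ≠ a' → o (m a') = (o c)⁻¹ ∧ u (m a') = (u c)⁻¹) := by
      intro c hc c1 c2 h5
      have e : m a = c := by rw [← h5, (h c hc).2.1]
      have := hv c (mem c hc c1 c2)
      simp only [h5, if_true] at this
      by_cases h6 : m a' = a'
      · simp only [h6, if_true] at this
        exact ⟨fun _ => by simpa using this, fun h => absurd h6 h⟩
      · simp only [h6, if_false] at this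
        refine ⟨fun h => absurd h h6, fun _ => this.2 fun h7 => ?_⟩
        have : m c = a' := by rw [← h7, l2]
        exact hne (h5.symm.trans this)
    have fact' : ∀ c, c ∈ S → c ≠ a → c ≠ a' → m c = a' → (m a = a → u c = (o c)⁻¹) ∧
        (m a ≠ a → o (m a) = (o c)⁻¹ ∧ u (m a) = (u c)⁻¹) := by
      intro c hc c1 c2 h5
      have h9 : m c ≠ a := by rw [h5]; exact Ne.symm hne
      have := hv c (mem c hc c1 c2)
      simp only [h5, if_true, if_neg (Ne.symm hne)] at this
      by_cases h6 : m a = a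
      · simp only [h6, if_true] at this
        exact ⟨fun _ => by simpa using this, fun h => absurd h6 h⟩
      · simp only [h6, if_false] at this
        refine ⟨fun h => absurd h h6, fun _ => this.2 fun h7 => ?_⟩
        have : m c = a := by rw [← h7, k2]
        exact h9 this
    refine ⟨fun c => if c = a then α o else if c = a' then (α o)⁻¹ else o c,
      fun c => if c = a then α u else if c = a' then (α u)⁻¹ else u c, ?_, ?_, ?_, ?_⟩
    · intro c hc
      by_cases c1 : c = a
      · subst c1
        simp only [if_true]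
        refine ⟨fun h0 => ?_, fun h0 => ?_⟩
        · have e1 : ∀ f : ℕ → G, α f = if m a' ≠ a' ∧ m a' ≠ c then f (m a') else 1 := by
            intro f; simp [hα, h0]
          rw [e1, e1]
          by_cases h6 : m a' = a'
          · simp [h6]
          · have h7 : m a' ≠ c := fun h7 => hne (by rw [← h0, ← h7, l2])
            simp only [h6, h7, ne_eq, not_false_eq_true, and_self, if_true]
            exact (fact' (m a') l1 h7 h6 l2).1 h0
        · rw [if_neg h0, if_neg h0]
          by_cases h7 : m c = a'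
          · have h8 : m a' = c := by rw [← h7, k2]
            have e1 : ∀ f : ℕ → G, α f = 1 := by
              intro f; simp [hα, h7, h8]
            simp [e1, h7]
          · rw [if_neg h7, if_neg h7]
            have e1 : ∀ f : ℕ → G, α f = (f (m c))⁻¹ := by
              intro f; simp [hα, h0, h7]
            simp [e1]
      · by_cases c2 : c = a'
        · subst c2
          simp only [c1, if_false, if_true]
          refine ⟨fun h0 => ?_, fun h0 => ?_⟩
          · by_cases h6 : m a = a
            · have e1 : ∀ f : ℕ → G, α f = 1 := by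
                intro f; simp [hα, h6, h0]
              simp [e1]
            · have h7 : m a ≠ c := fun h7 => c1 (by rw [← h0, ← h7, k2])
              have e1 : ∀ f : ℕ → G, α f = (f (m a))⁻¹ := by
                intro f; simp [hα, h6, h7]
              rw [e1, e1]
              have := (fact (m a) k1 h6 h7 k2).1 h0
              rw [this]
          · by_cases h7 : m c = a
            · have h8 : m a = c := by rw [← h7, l2]
              have e1 : ∀ f : ℕ → G, α f = 1 := by
                intro f; simp [hα, h7, h8]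
              simp [e1, h7]
            · rw [if_neg h7, if_neg h7, if_neg h0, if_neg h0]
              by_cases h6 : m a = a
              · have e1 : ∀ f : ℕ → G, α f = f (m c) := by
                  intro f; simp [hα, h6, h0, h7]
                simp [e1]
              · have h9 : m a ≠ c := fun h9 => h7 (by rw [← h9, k2])
                have e1 : ∀ f : ℕ → G, α f = (f (m a))⁻¹ := by
                  intro f; simp [hα, h6, h9]
                rw [e1, e1, inv_inv, inv_inv]
                have := (fact (m a) k1 h6 h9 k2).2 h0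
                exact this
        · simp only [c1, c2, if_false]
          by_cases h5 : m c = a
          · have e : m a = c := by rw [← h5, (h c hc).2.1]
            have e1 : ∀ f : ℕ → G, α f = (f c)⁻¹ := by
              intro f; simp [hα, e, c1, c2]
            rw [h5, if_pos rfl, if_pos rfl, e1, e1]
            exact ⟨fun h => absurd h.symm c1, fun _ => ⟨rfl, rfl⟩⟩
          · by_cases h8 : m c = a'
            · have e : m a' = c := by rw [← h8, (h c hc).2.1]
              rw [h8, if_neg (Ne.symm hne), if_neg (Ne.symm hne), if_pos rfl, if_pos rfl]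
              refine ⟨fun h => absurd h.symm c2, fun _ => ?_⟩
              by_cases h6 : m a = a
              · have e1 : ∀ f : ℕ → G, α f = f c := by
                  intro f; simp [hα, h6, e, c1, c2]
                rw [e1, e1]; exact ⟨rfl, rfl⟩
              · have h9 : m a ≠ a' := fun h9 => c1 (by rw [← e, ← h9, k2])
                have e1 : ∀ f : ℕ → G, α f = (f (m a))⁻¹ := by
                  intro f; simp [hα, h6, h9]
                rw [e1, e1, inv_inv, inv_inv]
                exact (fact' c hc c1 c2 h8).2 h6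
            · rw [if_neg h5, if_neg h8, if_neg h5, if_neg h8]
              have := hv c (mem c hc c1 c2)
              simp only [h5, h8, if_false] at this
              exact this
    · intro c c1 c2
      simp [c1, c2]
    · simp [Ne.symm hne]
    · simp [Ne.symm hne]

theorem elim_freeE {x y : ℕ} (h : ME S m σ χ) (hx : m x = y) (hy : m y = x) (hxy : x ≠ y) :
    ME (S \ {x, y}) m σ χ ∧ ∀ (G : Type) [Group G] (o u : ℕ → G), Vd (S \ {x, y}) m o u →
      ∀ α β : G, ∃ o' u' : ℕ → G, Vd S m o' u' ∧ (∀ c, c ≠ x → c ≠ y → o' c = o c ∧ u' c = u c) ∧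
        o' x = α ∧ u' x = β ∧ o' y = α⁻¹ ∧ u' y = β⁻¹ := by
  obtain ⟨h1, h2⟩ := elim_free2 h.1 hx hy hxy
  refine ⟨⟨h1, fun c hc => h.2 c hc.1⟩, fun G _ o u hv α β => ?_⟩
  refine ⟨_, _, h2 G o u hv α β, fun c c1 c2 => ?_, ?_⟩
  · simp [c1, c2]
  · simp [Ne.symm hxy]

/-- the names in a list of pairs -/
def nms : List (ℕ × ℕ) → List ℕ
  | [] => []
  | q :: L => q.1 :: q.2 :: nms L

theorem elim_list : ∀ (L : List (ℕ × ℕ)) (S : Set ℕ) (m : ℕ → ℕ), ME S m σ χ → (nms L).Nodup →
    (∀ q ∈ L, q.1 ∈ S ∧ q.2 ∈ S ∧ σ q.2 = !σ q.1 ∧ χ q.2 = χ q.1) →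
    ∃ m', ME {c | c ∈ S ∧ c ∉ nms L} m' σ χ ∧ ∀ (G : Type) [Group G] (o u : ℕ → G),
      Vd {c | c ∈ S ∧ c ∉ nms L} m' o u → ∃ o' u' : ℕ → G, Vd S m o' u' ∧
        (∀ c, c ∉ nms L → o' c = o c ∧ u' c = u c) ∧
        ∀ q ∈ L, o' q.2 = (o' q.1)⁻¹ ∧ u' q.2 = (u' q.1)⁻¹
  | [], S, m, hm, _, _ => by
    have hS : {c | c ∈ S ∧ c ∉ nms []} = S := by ext c; simp [nms]
    rw [hS]
    exact ⟨m, hm, fun G _ o u hv => ⟨o, u, hv, fun _ _ => ⟨rfl, rfl⟩, by simp⟩⟩
  | q :: L, S, m, hm, hn, hL => by
    simp only [nms, List.nodup_cons, List.mem_cons, not_or] at hn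
    obtain ⟨⟨n1, n2⟩, n3, n4⟩ := hn
    obtain ⟨q1, q2, q3, q4⟩ := hL q (by simp)
    obtain ⟨m₁, hm₁, k₁⟩ := elim_pairE hm q1 q2 n1 q3 q4
    have hL' : ∀ r ∈ L, r.1 ∈ nms L ∧ r.2 ∈ nms L := by
      clear hL n1 n2 n3 n4 q1 q2 q3 q4 hm₁ k₁
      induction L with
      | nil => simp
      | cons s L ih =>
        intro r hr
        rcases List.mem_cons.1 hr with rfl | hr
        · simp [nms]
        · obtain ⟨h1, h2⟩ := ih r hr
          simp [nms, h1, h2]
    obtain ⟨m', hm', k'⟩ := elim_list L (S \ {q.1, q.2}) m₁ hm₁ n4 (by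
      intro r hr
      obtain ⟨r1, r2, r3, r4⟩ := hL r (by simp [hr])
      obtain ⟨l1, l2⟩ := hL' r hr
      refine ⟨⟨r1, ?_⟩, ⟨r2, ?_⟩, r3, r4⟩
      · simp only [Set.mem_insert_iff, Set.mem_singleton_iff, not_or]
        exact ⟨fun e => n2 (e ▸ l1), fun e => n3 (e ▸ l1)⟩
      · simp only [Set.mem_insert_iff, Set.mem_singleton_iff, not_or]
        exact ⟨fun e => n2 (e ▸ l2), fun e => n3 (e ▸ l2)⟩)
    have hS : {c | c ∈ S \ {q.1, q.2} ∧ c ∉ nms L} = {c | c ∈ S ∧ c ∉ nms (q :: L)} := by
      ext c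
      simp only [nms, Set.mem_setOf_eq, Set.mem_sdiff, Set.mem_insert_iff, Set.mem_singleton_iff,
        List.mem_cons]
      tauto
    rw [hS] at hm' k'
    refine ⟨m', hm', fun G _ o u hv => ?_⟩
    obtain ⟨o₁, u₁, v₁, w₁, r₁⟩ := k' G o u hv
    obtain ⟨o₂, u₂, v₂, w₂, r₂⟩ := k₁ G o₁ u₁ v₁
    refine ⟨o₂, u₂, v₂, fun c hc => ?_, fun r hr => ?_⟩
    · simp only [nms, List.mem_cons, not_or] at hc
      obtain ⟨e1, e2⟩ := w₂ c hc.1 hc.2.1
      obtain ⟨e3, e4⟩ := w₁ c hc.2.2
      exact ⟨e1.trans e3, e2.trans e4⟩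
    · rcases List.mem_cons.1 hr with rfl | hr
      · exact r₂
      · obtain ⟨l1, l2⟩ := hL' r hr
        obtain ⟨e1, e2⟩ := w₂ r.1 (fun e => n2 (e ▸ l1)) (fun e => n3 (e ▸ l1))
        obtain ⟨e3, e4⟩ := w₂ r.2 (fun e => n2 (e ▸ l2)) (fun e => n3 (e ▸ l2))
        rw [e1, e2, e3, e4]
        exact r₁ r hr

end Pool.Agent.Run7.H178.TF
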