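import Pool.Agent.Run7.h178.TF.Sq
import Pool.Agent.Y759.TP2.Inst
import Pool.Agent.R800.BT.Code

/-! The junction lemma for two families of curves. -/

namespace Pool.Agent.Run7.H178.TF

open Pool.Agent.Y468.SR
open Pool.Agent.Y874.TP (colour NullV Tri TC Cyc word4 passes_append' sep)
open Pool.Agent.Y874.TP2
open Pool.Agent.Y759.TP2 (part_mem part_invol)
open Pool.Agent.R800.BT (exists_sign cn_drop bv_one)

/-- `a b c d` is the cyclic word of one of the circles -/
def SqP (Ts : List Tri) (a b c d : Pass) : Prop := ∃ C ∈ TC Ts, [a, b, c, d] ~r C.1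

theorem rot4 {α : Type} {a b c d w x y z : α} (h : [a, b, c, d] ~r [w, x, y, z]) :
    (a = w ∧ b = x ∧ c = y ∧ d = z) ∨ (a = x ∧ b = y ∧ c = z ∧ d = w) ∨
      (a = y ∧ b = z ∧ c = w ∧ d = x) ∨ (a = z ∧ b = w ∧ c = x ∧ d = y) := by
  obtain ⟨n, hn, h⟩ := List.isRotated_iff_mod.1 h
  simp only [List.length_cons, List.length_nil] at hn
  have hn' : n = 0 ∨ n = 1 ∨ n = 2 ∨ n = 3 ∨ n = 4 := by omega
  rcases hn' with rfl | rfl | rfl | rfl | rfl <;>
    simp only [List.rotate_cons_succ, List.rotate_zero, List.cons_append, List.nil_append,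
      List.cons.injEq, and_true] at h <;> obtain ⟨h1, h2, h3, h4⟩ := h <;> simp [h1, h2, h3, h4]

theorem rot_one {α : Type} {a b c d : α} {W : List α} (h : [a, b, c, d] ~r W) :
    [b, c, d, a] ~r W := by
  have h1 : [a, b, c, d] ~r [b, c, d, a] := ⟨1, rfl⟩
  exact h1.symm.trans h

theorem SqP.rot {Ts : List Tri} {a b c d : Pass} (h : SqP Ts a b c d) : SqP Ts b c d a := by
  obtain ⟨C, hC, h⟩ := h
  exact ⟨C, hC, rot_one h⟩

theorem eq_of_mem_flatten {α : Type} {L : List (List α)} (h : L.flatten.Nodup) {W W' : List α}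
    (hW : W ∈ L) (hW' : W' ∈ L) {a : α} (ha : a ∈ W) (ha' : a ∈ W') : W = W' := by
  by_contra hne
  have h1 := (List.nodup_flatten.1 h).2
  haveI : Std.Symm (List.Disjoint (α := α)) := ⟨fun _ _ h => h.symm⟩
  exact List.Pairwise.forall (R := List.Disjoint) h1 hW hW' hne ha ha'

theorem word_of_mem {Ts : List Tri} {C : List Pass × ℕ} (hC : C ∈ TC Ts) :
    ∃ T ∈ Ts, C.1 ∈ [T.wi, T.wj, T.wk] := by
  obtain ⟨T, hT, hC⟩ := List.mem_flatMap.1 hC
  refine ⟨T, hT, ?_⟩
  simp only [Tri.code, List.mem_cons, List.not_mem_nil, or_false] at hC ⊢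
  rcases hC with rfl | rfl | rfl <;> simp

theorem mem_TC {Ts : List Tri} {T : Tri} (hT : T ∈ Ts) {W : List Pass} (hW : W ∈ [T.wi, T.wj, T.wk]) :
    ∃ C ∈ TC Ts, C.1 = W := by
  simp only [List.mem_cons, List.not_mem_nil, or_false] at hW
  rcases hW with rfl | rfl | rfl
  · exact ⟨(T.wi, T.li), List.mem_flatMap.2 ⟨T, hT, by simp [Tri.code]⟩, rfl⟩
  · exact ⟨(T.wj, T.lj), List.mem_flatMap.2 ⟨T, hT, by simp [Tri.code]⟩, rfl⟩
  · exact ⟨(T.wk, T.lk), List.mem_flatMap.2 ⟨T, hT, by simp [Tri.code]⟩, rfl⟩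

/-- words of length four with alternating values -/
def Alt (g : Pass → Bool) (W : List Pass) : Prop :=
  ∃ w x y z, W = [w, x, y, z] ∧ g w ≠ g x ∧ g y = g w ∧ g z = g x

theorem alt_word {g : Pass → Bool} {e : Bool} {P₁ P₂ Q₁ Q₂ : Pass} (h1 : g P₂ = g P₁)
    (h2 : g Q₂ = g Q₁) (h : g P₁ ≠ g Q₁) : Alt g (word4 e P₁ P₂ Q₁ Q₂) := by
  cases e
  · exact ⟨P₂, Q₂, P₁, Q₁, rfl, by rw [h1, h2]; exact h, h1.symm, h2.symm⟩
  · exact ⟨Q₂, P₂, Q₁, P₁, rfl, by rw [h1, h2]; exact h.symm, h2.symm, h1.symm⟩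

/-- the three pairs of curves crossing at a triple point belong to different families -/
def Bip (F : ℕ × Bool → Bool) (T : Tri) : Prop :=
  F (kap T.pa₁) ≠ F (kap T.pb₁) ∧ F (kap T.pa₁.mate) ≠ F (kap T.pc₁) ∧
    F (kap T.pb₁.mate) ≠ F (kap T.pc₁.mate)

theorem alt_tri {F : ℕ × Bool → Bool} {T : Tri} (hc : T.Col) (hb : Bip F T) {W : List Pass}
    (hW : W ∈ [T.wi, T.wj, T.wk]) : Alt (fun p => F (kap p)) W := by
  obtain ⟨h1, h2, h3⟩ := hc
  obtain ⟨b1, b2, b3⟩ := hb
  have k1 : kap T.pa₂ = kap T.pa₁ := Pool.Agent.Y759.TP2.kap_col _ _ _ _ _ h1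
  have k2 : kap T.pb₂ = kap T.pb₁ := Pool.Agent.Y759.TP2.kap_col _ _ _ _ _ h2
  have k3 : kap T.pc₂ = kap T.pc₁ := Pool.Agent.Y759.TP2.kap_col _ _ _ _ _ h3
  have k4 : kap T.pa₂.mate = kap T.pa₁.mate := Pool.Agent.Y759.TP2.kap_mate_col _ _ _ _ _ h1
  have k5 : kap T.pb₂.mate = kap T.pb₁.mate := Pool.Agent.Y759.TP2.kap_mate_col _ _ _ _ _ h2
  have k6 : kap T.pc₂.mate = kap T.pc₁.mate := Pool.Agent.Y759.TP2.kap_mate_col _ _ _ _ _ h3
  simp only [List.mem_cons, List.not_mem_nil, or_false] at hW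
  rcases hW with rfl | rfl | rfl
  · exact alt_word (by simp only [k1]) (by simp only [k2]) b1
  · exact alt_word (by simp only [k4]) (by simp only [k3]) b2
  · exact alt_word (by simp only [k5]) (by simp only [k6]) b3

theorem kap_part {P : List Pass} {m : ℕ → ℕ} (hm : CM P m) {p : Pass} (hp : p ∈ P) :
    kap (part m p) = kap p := by
  obtain ⟨h1, h2⟩ := hm p hp
  unfold part
  split_ifs with h
  · have h3 : colour p.crossing % 2 = 0 := by
      by_contra h3
      exact h2 h3 h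
    simp [kap, lc, Pass.mate, h3]
  · unfold kap lc
    simp only [h1]

theorem exists_lift {α : Type} {P : α → Prop} (w : List α) (h : ∀ x ∈ w, P x) :
    ∃ w' : List {x // P x}, w'.map Subtype.val = w := by
  induction w with
  | nil => exact ⟨[], rfl⟩
  | cons x w ih =>
    obtain ⟨w', e⟩ := ih fun y hy => h y (by simp [hy])
    exact ⟨⟨x, h x (by simp)⟩ :: w', by simp [e]⟩

theorem cyc_of_rot {a b c d : Pass} {W : List Pass} (h : [a, b, c, d] ~r W) : Cyc a b W := by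
  have hl : W.length = 4 := by
    have := h.perm.length_eq
    simpa using this.symm
  obtain ⟨w, x, y, z, rfl⟩ : ∃ w x y z, W = [w, x, y, z] := by
    match W, hl with
    | [w, x, y, z], _ => exact ⟨w, x, y, z, rfl⟩
  rcases rot4 h with ⟨rfl, rfl, rfl, rfl⟩ | ⟨rfl, rfl, rfl, rfl⟩ | ⟨rfl, rfl, rfl, rfl⟩ |
    ⟨rfl, rfl, rfl, rfl⟩
  · exact Or.inl ⟨[], [c, d], rfl⟩
  · exact Or.inl ⟨[d], [c], rfl⟩
  · exact Or.inl ⟨[c, d], [], rfl⟩
  · exact Or.inr ⟨[c, d], rfl⟩

theorem junc {F : ℕ × Bool → Bool} {D : Code} {Ts : List Tri} {m : ℕ → ℕ}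
    (hn : (D.map Prod.snd).Nodup) (hD : WF (passes D)) (hW : WF (passes (D ++ TC Ts)))
    (hI : InvM (D ++ TC Ts) m) (hcol : ∀ T ∈ Ts, T.Col) (hF : ∀ T ∈ Ts, Bip F T)
    (hnb : ∀ C ∈ TC Ts, ∀ C' ∈ TC Ts, ∀ p q : Pass, Cyc p q C.1 →
      Cyc (part m q) (part m p) C'.1 → False) (hne : passes D ≠ []) :
    ∃ C ∈ D, ∃ a c p r, C.1 = a ++ p :: r :: c ∧
    (Canc m p r ∨ ∃ T ∈ Ts, ∃ W ∈ [T.wi, T.wj, T.wk], ∃ p' r' : Pass, Cyc r' p' W ∧
      p'.crossing = m p.crossing ∧ p'.isOver = p.isOver ∧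
      r'.crossing = m r.crossing ∧ r'.isOver = r.isOver) := by
  classical
  obtain ⟨sg, hsg⟩ := exists_sign hW
  have hnd : (passes (TC Ts)).Nodup := by
    have := WF.nodup hW
    rw [passes_append'] at this
    exact (List.nodup_append.1 this).2.1
  have hfl : ((TC Ts).map Prod.fst).flatten.Nodup := by
    rw [Pool.Agent.Y759.TP2.flatten_fst]; exact hnd
  have hinT : ∀ C ∈ TC Ts, ∀ p ∈ C.1, p ∈ passes (D ++ TC Ts) := by
    intro C hC p hp
    rw [passes_append']
    exact List.mem_append_right _ (mem_passes.2 ⟨C, hC, hp⟩)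
  let S : SqD {p : Pass // p ∈ passes (D ++ TC Ts)} :=
    { σ := fun x => ⟨part m x.1, part_mem hW hI.1 x.2⟩
      f := fun x => F (kap x.1)
      Sq := fun a b c d => SqP Ts a.1 b.1 c.1 d.1
      invol := fun x => Subtype.ext (part_invol hI.1 x.2)
      fσ := fun x => congrArg F (kap_part hI.2.1 x.2)
      rot := fun a b c d h => h.rot
      alt := by
        rintro a b c d ⟨C, hC, h⟩
        obtain ⟨T, hT, hC'⟩ := word_of_mem hC
        obtain ⟨w, x, y, z, e, h1, h2, h3⟩ := alt_tri (hcol T hT) (hF T hT) hC'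
        rw [e] at h
        simp only at h1 h2 h3
        rcases rot4 h with ⟨e1, e2, e3, e4⟩ | ⟨e1, e2, e3, e4⟩ | ⟨e1, e2, e3, e4⟩ |
          ⟨e1, e2, e3, e4⟩ <;> simp only [e1, e2]
        · exact h1
        · rw [h2]; exact h1.symm
        · rw [h2, h3]; exact h1
        · rw [h3]; exact h1.symm
      uniq := by
        rintro a b c d b' c' d' ⟨C, hC, h⟩ ⟨C', hC', h'⟩
        have e : C.1 = C'.1 := by
          refine eq_of_mem_flatten hfl (List.mem_map_of_mem hC) (List.mem_map_of_mem hC')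
            (a := a.1) ?_ ?_
          · exact h.perm.subset (by simp)
          · exact h'.perm.subset (by simp)
        rw [← e] at h'
        have h2 : [a.1, b'.1, c'.1, d'.1] ~r [a.1, b.1, c.1, d.1] := h'.trans h.symm
        have h3 : [a.1, b.1, c.1, d.1].Nodup := by
          rw [h.perm.nodup_iff]
          exact (List.nodup_flatten.1 hfl).1 _ (List.mem_map_of_mem hC)
        simp only [List.nodup_cons, List.mem_cons, List.not_mem_nil, or_false, not_or] at h3
        rcases rot4 h2 with ⟨e1, e2, e3, e4⟩ | ⟨e1, -⟩ | ⟨e1, -⟩ | ⟨e1, -⟩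
        · exact ⟨(Subtype.ext e2).symm, (Subtype.ext e3).symm, (Subtype.ext e4).symm⟩
        · exact absurd e1 h3.1.1
        · exact absurd e1 h3.1.2.1
        · exact absurd e1 h3.1.2.2
      nob := by
        rintro a b c d c' d' ⟨C, hC, h⟩ ⟨C', hC', h'⟩
        exact hnb C hC C' hC' a.1 b.1 (cyc_of_rot h) (cyc_of_rot h') }
  let A : Pass → Equiv.Perm {w : List {p : Pass // p ∈ passes (D ++ TC Ts)} // S.vh.Irr w} :=
    fun p => if h : p ∈ passes (D ++ TC Ts) then S.vh.act ⟨p, h⟩ else 1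
  have hA1 : ∀ (p : Pass) (h : p ∈ passes (D ++ TC Ts)), A p = S.vh.act ⟨p, h⟩ := fun p h => dif_pos h
  have hA2 : ∀ p ∈ passes (D ++ TC Ts), A (part m p) = (A p)⁻¹ := by
    intro p hp
    rw [hA1 p hp, hA1 _ (part_mem hW hI.1 hp)]
    exact VH.act_inv (V := S.vh) ⟨p, hp⟩
  let o : ℕ → Equiv.Perm {w : List {p : Pass // p ∈ passes (D ++ TC Ts)} // S.vh.Irr w} :=
    fun c => A ⟨c, true, sg c⟩
  let u : ℕ → Equiv.Perm {w : List {p : Pass // p ∈ passes (D ++ TC Ts)} // S.vh.Irr w} :=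
    fun c => A ⟨c, false, sg c⟩
  have hval : ∀ p ∈ passes (D ++ TC Ts), val o u p = A p := by
    intro p hp
    have h1 := hsg p hp
    obtain ⟨c, e, s⟩ := p
    simp only at h1
    cases e <;> simp [val, o, u, h1]
  have hv : Valid (passes (D ++ TC Ts)) m o u := by
    intro p hp
    have hs := hsg p hp
    have hop : (⟨p.crossing, true, sg p.crossing⟩ : Pass) ∈ passes (D ++ TC Ts) ∧
        (⟨p.crossing, false, sg p.crossing⟩ : Pass) ∈ passes (D ++ TC Ts) := by
      have h2 := hW.1 p hp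
      obtain ⟨c, e, s⟩ := p
      simp only at hs
      subst hs
      cases e
      · exact ⟨h2, hp⟩
      · exact ⟨hp, h2⟩
    have k1 := hA2 _ hop.1
    have k2 := hA2 _ hop.2
    constructor
    · intro h
      unfold part at k1
      simp only [h, if_true, Pass.mate, Bool.not_true] at k1
      exact k1
    · intro h
      obtain ⟨q, hq, q1, q2, q3⟩ := hI.1 p hp
      have hs' : sg (m p.crossing) = !sg p.crossing := by
        rw [← q1, hsg q hq, hs]
        exact q3 (by rw [q1]; exact h)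
      unfold part at k1 k2
      simp only [h, if_false] at k1 k2
      simp only [o, u, hs']
      exact ⟨k1, k2⟩
  have hnull := hI.2.2 _ o u hv
  -- the circles
  have hcirc : ∀ C ∈ TC Ts, wval o u C.1 = 1 := by
    intro C hC
    obtain ⟨T, hT, hC'⟩ := word_of_mem hC
    obtain ⟨w, x, y, z, e, -⟩ := alt_tri (hcol T hT) (hF T hT) hC'
    have hm : ∀ p ∈ C.1, p ∈ passes (D ++ TC Ts) := hinT C hC
    rw [e] at hm
    have hsq : S.Sq ⟨w, hm w (by simp)⟩ ⟨x, hm x (by simp)⟩ ⟨y, hm y (by simp)⟩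
        ⟨z, hm z (by simp)⟩ := ⟨C, hC, by rw [e]⟩
    have h1 := SqD.act_sq hsq
    rw [e]
    simp only [wval_cons, wval_nil, mul_one]
    rw [hval w (hm w (by simp)), hval x (hm x (by simp)), hval y (hm y (by simp)),
      hval z (hm z (by simp)), hA1 w (hm w (by simp)), hA1 x (hm x (by simp)),
      hA1 y (hm y (by simp)), hA1 z (hm z (by simp))]
    rw [← mul_assoc, ← mul_assoc]
    exact h1
  have hcomp : ∀ C ∈ D, wval o u C.1 = 1 := by
    intro C hC
    have h1 := hnull C.2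
    rw [vals_append, bv_append] at h1
    have h2 := cn_drop (bv_one hcirc C.2) (h1.perm List.perm_append_comm)
    rw [bv_vals_singleton hn hC] at h2
    exact CN.singleton.1 h2
  obtain ⟨p₀, hp₀⟩ := List.exists_mem_of_ne_nil _ hne
  obtain ⟨C, hC, hpC⟩ := mem_passes.1 hp₀
  have hmem : ∀ p ∈ C.1, p ∈ passes (D ++ TC Ts) := by
    intro p hp
    rw [passes_append']
    exact List.mem_append_left _ (mem_passes.2 ⟨C, hC, hp⟩)
  obtain ⟨w, hw⟩ := exists_lift C.1 hmem
  have hprod : (w.map S.vh.act).prod = 1 := by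
    rw [← hcomp C hC, ← hw, wval, List.map_map]
    congr 1
    refine List.map_congr_left fun x _ => ?_
    change _ = val o u x.1
    rw [hval x.1 x.2, hA1 x.1 x.2]
  have hirr : ¬S.vh.Irr w := by
    intro h
    have := VH.eq_nil_of_prod h hprod
    rw [this] at hw
    simp only [List.map_nil] at hw
    rw [← hw] at hpC
    simp at hpC
  obtain ⟨a, c, x, y, rfl, hxy⟩ := VH.not_irr hirr
  refine ⟨C, hC, a.map Subtype.val, c.map Subtype.val, x.1, y.1, by rw [← hw]; simp, ?_⟩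
  have hxD : x.1 ∈ passes D := mem_passes.2 ⟨C, hC, by rw [← hw]; simp⟩
  have hyD : y.1 ∈ passes D := mem_passes.2 ⟨C, hC, by rw [← hw]; simp⟩
  rcases hxy with h | h
  · left
    have h' : y.1 = part m x.1 := congrArg Subtype.val h
    unfold part at h'
    split_ifs at h' with hm
    · left
      exact ⟨hm, by rw [h']; rfl, by rw [h']; rfl⟩
    · right
      exact ⟨hm, by rw [h'], by rw [h']⟩
  · right
    obtain ⟨⟨b', r'⟩, hr⟩ := Option.ne_none_iff_exists'.1 h
    obtain ⟨-, -, h3 | h3⟩ := SqD.rule_iff.1 hr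
    · exfalso
      obtain ⟨C', hC', h4⟩ := h3
      have h5 : x.1 ∈ passes (TC Ts) := mem_passes.2 ⟨C', hC', h4.perm.subset (by simp)⟩
      exact sep hD hW hxD h5 rfl
    · obtain ⟨C', hC', h4⟩ := h3
      obtain ⟨T, hT, hW'⟩ := word_of_mem hC'
      have hpart : ∀ p : Pass, p ∈ passes D → part m p ∈ C'.1 →
          (part m p).crossing = m p.crossing ∧ (part m p).isOver = p.isOver := by
        intro p hp hpq
        unfold part at hpq ⊢
        split_ifs at hpq ⊢ with hm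
        · exfalso
          have h1 : p.mate ∈ passes (TC Ts) := mem_passes.2 ⟨C', hC', hpq⟩
          exact sep hD hW hp h1 rfl
        · exact ⟨rfl, rfl⟩
      obtain ⟨c1, c2⟩ := hpart x.1 hxD (h4.perm.subset (by simp [S]))
      obtain ⟨c3, c4⟩ := hpart y.1 hyD (h4.perm.subset (by simp [S]))
      exact ⟨T, hT, C'.1, hW', part m x.1, part m y.1, cyc_of_rot h4, c1, c2, c3, c4⟩

end Pool.Agent.Run7.H178.TF
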