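import Pool.Agent.Run7.h178.TF.Red

/-! Two families of curves: the reduction and the movie. -/

namespace Pool.Agent.Y874.TP2.H178

open Pool.Agent.Y468.SR
open Pool.Agent.Y874.TP
open Pool.Agent.R800.BT (Hts)
open Pool.Agent.Y874.TP2.T3 (sig InvB)
open Pool.Agent.R800.TP (TMovie tmovie_inv' tmovie_classical curve crs)
open Pool.Agent.Run7.H178.TF

/-- The triples of colours at the triple points (top and middle, top and bottom, middle and bottom
strand) are as required, with respect to the family `F` of the curves in the surface. -/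
structure Adm (F : ℕ × Bool → Bool) (𝒯 : ℕ × ℕ × ℕ → Prop) : Prop where
  bip : ∀ t, 𝒯 t → F (curve t.1 true) ≠ F (curve t.2.1 true) ∧
    F (curve t.1 false) ≠ F (curve t.2.2 true) ∧ F (curve t.2.1 false) ≠ F (curve t.2.2 false)
  cls : ∀ t t', 𝒯 t → 𝒯 t' → (t'.1 = t.1 → t'.2.1 = t.2.1 → t'.2.2 = t.2.2) ∧
    (t'.1 = t.1 → t'.2.2 = t.2.2 → t'.2.1 = t.2.1) ∧ (t'.2.1 = t.2.1 → t'.2.2 = t.2.2 → t'.1 = t.1)
  sw : ∀ t t', 𝒯 t → 𝒯 t' → ¬(t'.1 = t.2.1 ∧ t'.2.1 = t.1) ∧ ¬(t'.2.1 = t.2.2 ∧ t'.2.2 = t.2.1)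

variable {F : ℕ × Bool → Bool} {𝒯 : ℕ × ℕ × ℕ → Prop}

theorem Adm.bipT (hA : Adm F 𝒯) {T : Tri} (ht : Hts T)
    (h : 𝒯 (colour T.a₁, colour T.b₁, colour T.c₁)) : Bip F T := by
  obtain ⟨t1, t2, t3⟩ := ht
  obtain ⟨h1, h2, h3⟩ := hA.bip _ h
  have e1 : kap T.pa₁ = curve (colour T.a₁) true := by simp [kap, lc, curve, Tri.pa₁, t1]
  have e2 : kap T.pb₁ = curve (colour T.b₁) true := by simp [kap, lc, curve, Tri.pb₁, t2]
  have e3 : kap T.pa₁.mate = curve (colour T.a₁) false := by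
    simp [kap, lc, curve, Tri.pa₁, t1, Pass.mate]
  have e4 : kap T.pc₁ = curve (colour T.c₁) true := by simp [kap, lc, curve, Tri.pc₁, t3]
  have e5 : kap T.pb₁.mate = curve (colour T.b₁) false := by
    simp [kap, lc, curve, Tri.pb₁, t2, Pass.mate]
  have e6 : kap T.pc₁.mate = curve (colour T.c₁) false := by
    simp [kap, lc, curve, Tri.pc₁, t3, Pass.mate]
  unfold Bip
  rw [e1, e2, e3, e4, e5, e6]
  exact ⟨h1, h2, h3⟩

theorem reduce5 (hA : Adm F 𝒯) {D : Code} {Ts : List Tri} (hD : Classical D)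
    (hn : (D.map Prod.snd).Nodup) (h5 : Inv5 𝒯 D Ts) (h : passes D ≠ []) : Red5 𝒯 D Ts := by
  obtain ⟨m, hm⟩ := h5.inv
  by_cases hj : ∃ T ∈ Ts, ∃ T' ∈ Ts, Jn T T' m
  · obtain ⟨T, hT, T', hT', hj⟩ := hj
    have hne : T' ≠ T := by
      rintro rfl
      have := hj.eps
      cases h1 : eps T' <;> rw [h1] at this <;> simp at this
    obtain ⟨Ts', p1, p2⟩ := perm_two (D := D) hT hT' hne
    have hcl : ∀ s, cl T' s = cl T s := by
      obtain ⟨c1, c2, c3⟩ := hA.cls _ _ (h5.ty T hT).2 (h5.ty T' hT').2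
      have c1' : cl T' 0 = cl T 0 → cl T' 1 = cl T 1 → cl T' 2 = cl T 2 := c1
      have c2' : cl T' 0 = cl T 0 → cl T' 2 = cl T 2 → cl T' 1 = cl T 1 := c2
      have c3' : cl T' 1 = cl T 1 → cl T' 2 = cl T 2 → cl T' 0 = cl T 0 := c3
      obtain ⟨s, t, hst, k1, k2, -, -⟩ := hj.jn
      have key : cl T' 0 = cl T 0 ∧ cl T' 1 = cl T 1 ∧ cl T' 2 = cl T 2 := by
        fin_cases s <;> fin_cases t
        · exact absurd rfl hst
        · exact ⟨k1, k2, c1' k1 k2⟩
        · exact ⟨k1, c2' k1 k2, k2⟩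
        · exact ⟨k2, k1, c1' k2 k1⟩
        · exact absurd rfl hst
        · exact ⟨c3' k1 k2, k1, k2⟩
        · exact ⟨k2, c2' k2 k1, k1⟩
        · exact ⟨c3' k2 k1, k2, k1⟩
        · exact absurd rfl hst
      intro r
      fin_cases r
      · exact key.1
      · exact key.2.1
      · exact key.2.2
    have hw : WF (passes (T.code ++ (T'.code ++ (D ++ TC Ts')))) := WF.perm (passes_perm p2) h5.wf
    obtain ⟨m', hm'⟩ := drop2 hw (invM_perm p2 hm) (h5.ok T hT).1 (h5.ok T' hT').1 (h5.ty T hT).1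
      (h5.ty T' hT').1 (h5.ok T hT).2 (h5.ok T' hT').2 hcl hj
    have hmem : ∀ S ∈ Ts', S ∈ Ts := fun S hS => p1.mem_iff.2 (by simp [hS])
    refine ⟨D, Ts', Or.inl ?_, hD, hn, ⟨?_, fun S hS => h5.ok S (hmem S hS),
      fun S hS => h5.ty S (hmem S hS), m', hm'⟩, Relation.ReflTransGen.refl⟩
    · rw [p1.length_eq]
      simp only [List.length_cons]
      omega
    · rw [passes_append'] at hw
      have hw' := hw.remove fun p hp => Pool.Agent.R800.BT.mate_code hp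
      rw [passes_append'] at hw'
      exact hw'.remove fun p hp => Pool.Agent.R800.BT.mate_code hp
  · have hF : ∀ T ∈ Ts, Bip F T := fun T hT => hA.bipT (h5.ty T hT).1 (h5.ty T hT).2
    have hnb : ∀ C ∈ TC Ts, ∀ C' ∈ TC Ts, ∀ p q : Pass, Cyc p q C.1 →
        Cyc (part m q) (part m p) C'.1 → False := by
      intro C hC C' hC' p q k1 k2
      refine hj (bigon h5.wf hm (fun T hT => ⟨(h5.ok T hT).1, (h5.ok T hT).2, (h5.ty T hT).1⟩) hF
        (fun T hT T' hT' => ?_) hC hC' k1 k2)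
      exact hA.sw _ _ (h5.ty T hT).2 (h5.ty T' hT').2
    obtain ⟨C, hC, a, c, p, r, hpr, hcase⟩ := Pool.Agent.Run7.H178.TF.junc hn hD.1 h5.wf hm
      (fun T hT => (h5.ok T hT).2) hF hnb h
    rcases hcase with (⟨k1, k2, k3⟩ | ⟨k1, k2, k3⟩) | ⟨T, hT, W, hW, p', r', hcyc, e1, e2, e3, e4⟩
    · refine caseA5 RD.reid hD hn h5 hC hpr k2 k3 ?_
      by_contra h0
      refine (hm.2.1 p ?_).2 h0 k1
      rw [passes_append']
      exact List.mem_append_left _ (mem_passes.2 ⟨C, hC, by simp [hpr]⟩)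
    · exact caseB5 RD.reid CT.cut hD hn h5 hm hC hpr k1 k2 k3
    · exact remT5 OT.out_inv Pool.Agent.Y333.TP.mid_planar Pool.Agent.Y514.TP.out_planar
        Pool.Agent.Y210.TP.move hD hn h5 hm hC hpr hT hW hcyc e1 e2 e3 e4

theorem movie_of_inv5 (hA : Adm F 𝒯) (n : ℕ) : ∀ (l : ℕ) (D : Code)
    (Ts : List Tri), Ts.length = n → (passes D).length = l → Classical D →
    (D.map Prod.snd).Nodup → Inv5 𝒯 D Ts → Movie true false D [] := by
  induction n using Nat.strong_induction_on with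
  | _ n ihn =>
    intro l
    induction l using Nat.strong_induction_on with
    | _ l ihl =>
      intro D Ts h1 h2 hD hn h3
      by_cases h : passes D = []
      · exact movie_mono (deaths hn h)
      · obtain ⟨D', Ts', r1, r2, r3, r4, r5⟩ := reduce5 hA hD hn h3 h
        refine r5.trans ?_
        rcases r1 with r1 | ⟨r1, r1'⟩
        · exact ihn Ts'.length (by omega) _ D' Ts' rfl rfl r2 r3 r4
        · exact ihl (passes D').length (by omega) D' Ts' (by omega) rfl r2 r3 r4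

/-- discs whose double curves form two families can be replaced by ribbon discs -/
theorem ribbon_of_families {hd : Bool} {Z : ℕ → Prop} {D : Code} {T : List (ℕ × ℕ × ℕ)}
    (h : TMovie hd Z D T) (hZ : ∀ p ∈ passes D, ¬Z (colour p.crossing))
    (hn : (D.map Prod.snd).Nodup) (hA : Adm F fun t => t ∈ T) : Movie true false D [] := by
  obtain ⟨Ts, hI, hs⟩ := tmovie_inv' RD.reid RN.ren TH.three h hZ
  refine movie_of_inv5 hA _ _ D Ts rfl rfl (tmovie_classical h) hn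
    ⟨hI.wf, hI.ok, fun S hS => ?_, hI.inv⟩
  have h1 : sig S ∈ T.map fun t => (t, (true, true, true)) := by
    rw [← hs]; exact List.mem_map_of_mem hS
  obtain ⟨t, ht, h2⟩ := List.mem_map.1 h1
  simp only [sig, Prod.ext_iff] at h2
  obtain ⟨⟨h3, h4, h5⟩, h6, h7, h8⟩ := h2
  refine ⟨⟨h6.symm, h7.symm, h8.symm⟩, ?_⟩
  rw [← h3, ← h4, ← h5]
  exact ht

end Pool.Agent.Y874.TP2.H178
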