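import Pool.Agent.Run7.h178.TF.Elim2
import Pool.Agent.R800.BT.Fam

/-! Removing two triple points joined by two double curves: the algebra. -/

namespace Pool.Agent.Run7.H178.TF

open Pool.Agent.R800.BT (Mt Vd Tr)

section group
variable {G : Type} [Group G]

/-- the words of the three circles are trivial -/
def TrV (e : Bool) (ox ux ox' ux' oy uy oy' uy' oz uz oz' uz' : G) : Prop :=
  if e = true then oy' * ox' * oy * ox = 1 ∧ oz' * ux' * oz * ux = 1 ∧ uz' * uy' * uz * uy = 1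
  else ox' * oy' * ox * oy = 1 ∧ ux' * oz' * ux * oz = 1 ∧ uy' * uz' * uy * uz = 1

theorem sol_a (b c d : G) : ∃ t : G, t * b * c * d = 1 := ⟨(b * c * d)⁻¹, by group⟩
theorem sol_b (a c d : G) : ∃ t : G, a * t * c * d = 1 := ⟨a⁻¹ * (c * d)⁻¹, by group⟩
theorem sol_c (a b d : G) : ∃ t : G, a * b * t * d = 1 := ⟨(a * b)⁻¹ * d⁻¹, by group⟩
theorem sol_d (a b c : G) : ∃ t : G, a * b * c * t = 1 := ⟨(a * b * c)⁻¹, by group⟩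

theorem solve_xy (e : Bool) (ox' ux' oy' uy' oz uz oz' uz' : G) :
    ∃ α β γ δ : G, TrV e α β ox' ux' γ δ oy' uy' oz uz oz' uz' := by
  cases e
  · obtain ⟨α, h1⟩ := sol_c ox' oy' 1
    obtain ⟨β, h2⟩ := sol_c ux' oz' oz
    obtain ⟨δ, h3⟩ := sol_c uy' uz' uz
    exact ⟨α, β, 1, δ, h1, h2, h3⟩
  · obtain ⟨α, h1⟩ := sol_d oy' ox' 1
    obtain ⟨β, h2⟩ := sol_d oz' ux' oz
    obtain ⟨δ, h3⟩ := sol_d uz' uy' uz
    exact ⟨α, β, 1, δ, h1, h2, h3⟩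

theorem solve_xy' (e : Bool) (ox' ux' oy uy oz uz oz' uz' : G) :
    ∃ α β γ δ : G, TrV e α β ox' ux' oy uy γ δ oz uz oz' uz' := by
  cases e
  · obtain ⟨α, h1⟩ := sol_c ox' 1 oy
    obtain ⟨β, h2⟩ := sol_c ux' oz' oz
    obtain ⟨δ, h3⟩ := sol_a uz' uy uz
    exact ⟨α, β, 1, δ, h1, h2, h3⟩
  · obtain ⟨α, h1⟩ := sol_d 1 ox' oy
    obtain ⟨β, h2⟩ := sol_d oz' ux' oz
    obtain ⟨δ, h3⟩ := sol_b uz' uz uy
    exact ⟨α, β, 1, δ, h1, h2, h3⟩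

theorem solve_xz (e : Bool) (ox' ux' oy uy oy' uy' oz' uz' : G) :
    ∃ α β γ δ : G, TrV e α β ox' ux' oy uy oy' uy' γ δ oz' uz' := by
  cases e
  · obtain ⟨α, h1⟩ := sol_c ox' oy' oy
    obtain ⟨β, h2⟩ := sol_c ux' oz' 1
    obtain ⟨δ, h3⟩ := sol_d uy' uz' uy
    exact ⟨α, β, 1, δ, h1, h2, h3⟩
  · obtain ⟨α, h1⟩ := sol_d oy' ox' oy
    obtain ⟨β, h2⟩ := sol_d oz' ux' 1
    obtain ⟨δ, h3⟩ := sol_c uz' uy' uy
    exact ⟨α, β, 1, δ, h1, h2, h3⟩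

theorem solve_xz' (e : Bool) (ox' ux' oy uy oy' uy' oz uz : G) :
    ∃ α β γ δ : G, TrV e α β ox' ux' oy uy oy' uy' oz uz γ δ := by
  cases e
  · obtain ⟨α, h1⟩ := sol_c ox' oy' oy
    obtain ⟨β, h2⟩ := sol_c ux' 1 oz
    obtain ⟨δ, h3⟩ := sol_b uy' uy uz
    exact ⟨α, β, 1, δ, h1, h2, h3⟩
  · obtain ⟨α, h1⟩ := sol_d oy' ox' oy
    obtain ⟨β, h2⟩ := sol_d 1 ux' oz
    obtain ⟨δ, h3⟩ := sol_a uy' uz uy
    exact ⟨α, β, 1, δ, h1, h2, h3⟩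

theorem solve_yz (e : Bool) (ox ux ox' ux' oy' uy' oz' uz' : G) :
    ∃ α β γ δ : G, TrV e ox ux ox' ux' α β oy' uy' γ δ oz' uz' := by
  cases e
  · obtain ⟨α, h1⟩ := sol_d ox' oy' ox
    obtain ⟨γ, h2⟩ := sol_d ux' oz' ux
    obtain ⟨δ, h3⟩ := sol_d uy' uz' 1
    exact ⟨α, 1, γ, δ, h1, h2, h3⟩
  · obtain ⟨α, h1⟩ := sol_c oy' ox' ox
    obtain ⟨γ, h2⟩ := sol_c oz' ux' ux
    obtain ⟨δ, h3⟩ := sol_c uz' uy' 1
    exact ⟨α, 1, γ, δ, h1, h2, h3⟩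

theorem solve_yz' (e : Bool) (ox ux ox' ux' oy' uy' oz uz : G) :
    ∃ α β γ δ : G, TrV e ox ux ox' ux' α β oy' uy' oz uz γ δ := by
  cases e
  · obtain ⟨α, h1⟩ := sol_d ox' oy' ox
    obtain ⟨γ, h2⟩ := sol_b ux' ux oz
    obtain ⟨δ, h3⟩ := sol_b uy' 1 uz
    exact ⟨α, 1, γ, δ, h1, h2, h3⟩
  · obtain ⟨α, h1⟩ := sol_c oy' ox' ox
    obtain ⟨γ, h2⟩ := sol_a ux' oz ux
    obtain ⟨δ, h3⟩ := sol_a uy' uz 1
    exact ⟨α, 1, γ, δ, h1, h2, h3⟩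

/-- the words around the second triple point are the inverses -/
theorem tr_inv {e : Bool} {o u : ℕ → G} {x x' y y' z z' X X' Y Y' Z Z' : ℕ}
    (hx : o X' = (o x)⁻¹ ∧ u X' = (u x)⁻¹) (hx' : o X = (o x')⁻¹ ∧ u X = (u x')⁻¹)
    (hy : o Y' = (o y)⁻¹ ∧ u Y' = (u y)⁻¹) (hy' : o Y = (o y')⁻¹ ∧ u Y = (u y')⁻¹)
    (hz : o Z' = (o z)⁻¹ ∧ u Z' = (u z)⁻¹) (hz' : o Z = (o z')⁻¹ ∧ u Z = (u z')⁻¹)
    (h : Tr e o u x x' y y' z z') : Tr (!e) o u X X' Y Y' Z Z' := by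
  have key : ∀ {a b c d : G}, a * b * c * d = 1 → d⁻¹ * c⁻¹ * b⁻¹ * a⁻¹ = 1 := by
    intro a b c d h
    have : d⁻¹ * c⁻¹ * b⁻¹ * a⁻¹ = (a * b * c * d)⁻¹ := by group
    rw [this, h, inv_one]
  unfold Tr at h ⊢
  rw [hx.1, hx.2, hx'.1, hx'.2, hy.1, hy.2, hy'.1, hy'.2, hz.1, hz.2, hz'.1, hz'.2]
  cases e
  · simp only [Bool.false_eq_true, if_false, Bool.not_false, if_true] at h ⊢
    exact ⟨key h.1, key h.2.1, key h.2.2⟩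
  · simp only [if_true, Bool.not_true, Bool.false_eq_true, if_false] at h ⊢
    exact ⟨key h.1, key h.2.1, key h.2.2⟩

end group

/-- the pairs of corresponding names of two triple points -/
def prL (x x' y y' z z' X X' Y Y' Z Z' : ℕ) : List (ℕ × ℕ) :=
  [(x, X'), (x', X), (y, Y'), (y', Y), (z, Z'), (z', Z)]

/-- the data of two triple points -/
structure Dat2 (S : Set ℕ) (m : ℕ → ℕ) (σ : ℕ → Bool) (χ : ℕ → ℕ)
    (x x' y y' z z' X X' Y Y' Z Z' : ℕ) : Prop where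
  me : ME S m σ χ
  nd : (nms (prL x x' y y' z z' X X' Y Y' Z Z')).Nodup
  pr : ∀ q ∈ prL x x' y y' z z' X X' Y Y' Z Z',
    q.1 ∈ S ∧ q.2 ∈ S ∧ σ q.2 = !σ q.1 ∧ χ q.2 = χ q.1

theorem nms_append (L L' : List (ℕ × ℕ)) : nms (L ++ L') = nms L ++ nms L' := by
  induction L with
  | nil => rfl
  | cons q L ih => simp [nms, ih]

theorem nms_perm {L L' : List (ℕ × ℕ)} (h : L.Perm L') : (nms L).Perm (nms L') := by
  induction h with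
  | nil => exact List.Perm.refl _
  | cons x _ ih => exact (ih.cons _).cons _
  | swap x y l =>
    simp only [nms]
    rw [List.perm_iff_count]
    intro a
    simp only [List.count_cons]
    omega
  | trans _ _ ih1 ih2 => exact ih1.trans ih2

/-- two pairs of matched names: their labels are free -/
theorem base {S : Set ℕ} {m : ℕ → ℕ} {σ : ℕ → Bool} {χ : ℕ → ℕ} {P Q : ℕ × ℕ} {K L : List (ℕ × ℕ)}
    (hm : ME S m σ χ) (hn : (nms K).Nodup)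
    (hK : ∀ q ∈ K, q.1 ∈ S ∧ q.2 ∈ S ∧ σ q.2 = !σ q.1 ∧ χ q.2 = χ q.1)
    (hp : K.Perm (P :: Q :: L)) (hP : m P.1 = P.2) (hQ : m Q.1 = Q.2) :
    ∃ m', ME {c | c ∈ S ∧ c ∉ nms K} m' σ χ ∧ ∀ (G : Type) [Group G] (o u : ℕ → G),
      Vd {c | c ∈ S ∧ c ∉ nms K} m' o u → ∃ o₂ u₂ : ℕ → G,
        (∀ c, c ∉ nms K → o₂ c = o c ∧ u₂ c = u c) ∧
        ∀ α β γ δ : G, ∃ o' u' : ℕ → G, Vd S m o' u' ∧
          (∀ c, c ≠ P.1 → c ≠ P.2 → c ≠ Q.1 → c ≠ Q.2 → o' c = o₂ c ∧ u' c = u₂ c) ∧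
          o' P.1 = α ∧ u' P.1 = β ∧ o' Q.1 = γ ∧ u' Q.1 = δ ∧
          (∀ q ∈ K, o' q.2 = (o' q.1)⁻¹ ∧ u' q.2 = (u' q.1)⁻¹) := by
  have hn' : (nms (P :: Q :: L)).Nodup := (nms_perm hp).nodup_iff.1 hn
  simp only [nms, List.nodup_cons, List.mem_cons, not_or] at hn'
  obtain ⟨⟨n1, n2, n3, n4⟩, ⟨n5, n6, n7⟩, ⟨n8, n9⟩, n10, n11⟩ := hn'
  have hKP := hK P (hp.mem_iff.2 (by simp))
  have hKQ := hK Q (hp.mem_iff.2 (by simp))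
  have hP' : m P.2 = P.1 := by rw [← hP, (hm.1 _ hKP.1).2.1]
  have hQ' : m Q.2 = Q.1 := by rw [← hQ, (hm.1 _ hKQ.1).2.1]
  obtain ⟨h1, k1⟩ := elim_freeE hm hP hP' n1
  obtain ⟨h2, k2⟩ := elim_freeE h1 hQ hQ' n8
  have hL' : ∀ r ∈ L, r.1 ∈ nms L ∧ r.2 ∈ nms L := by
    clear hp n4 n7 n9 n10 n11
    induction L with
    | nil => simp
    | cons s L ih =>
      intro r hr
      rcases List.mem_cons.1 hr with rfl | hr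
      · simp [nms]
      · obtain ⟨h1, h2⟩ := ih r hr
        simp [nms, h1, h2]
  obtain ⟨m', h3, k3⟩ := elim_list L _ m h2 n11 (by
    intro r hr
    obtain ⟨r1, r2, r3, r4⟩ := hK r (hp.mem_iff.2 (by simp [hr]))
    obtain ⟨l1, l2⟩ := hL' r hr
    refine ⟨⟨⟨r1, ?_⟩, ?_⟩, ⟨⟨r2, ?_⟩, ?_⟩, r3, r4⟩ <;>
      simp only [Set.mem_insert_iff, Set.mem_singleton_iff, not_or]
    · exact ⟨fun e => n4 (e ▸ l1), fun e => n7 (e ▸ l1)⟩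
    · exact ⟨fun e => n9 (e ▸ l1), fun e => n10 (e ▸ l1)⟩
    · exact ⟨fun e => n4 (e ▸ l2), fun e => n7 (e ▸ l2)⟩
    · exact ⟨fun e => n9 (e ▸ l2), fun e => n10 (e ▸ l2)⟩)
  have hS : {c | c ∈ (S \ {P.1, P.2}) \ {Q.1, Q.2} ∧ c ∉ nms L} = {c | c ∈ S ∧ c ∉ nms K} := by
    ext c
    rw [Set.mem_setOf, Set.mem_setOf, (nms_perm hp).mem_iff]
    simp only [nms, Set.mem_sdiff, Set.mem_insert_iff, Set.mem_singleton_iff, List.mem_cons]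
    tauto
  rw [hS] at h3 k3
  refine ⟨m', h3, fun G _ o u hv => ?_⟩
  obtain ⟨o₂, u₂, v2, w2, r2⟩ := k3 G o u hv
  refine ⟨o₂, u₂, fun c hc => ?_, fun α β γ δ => ?_⟩
  · rw [(nms_perm hp).mem_iff] at hc
    simp only [nms, List.mem_cons, not_or] at hc
    exact w2 c hc.2.2.2.2
  · obtain ⟨o₁, u₁, v1, w1, a1, a2, a3, a4⟩ := k2 G o₂ u₂ v2 γ δ
    obtain ⟨o', u', v, w, b1, b2, b3, b4⟩ := k1 G o₁ u₁ v1 α β
    obtain ⟨w5, w6⟩ := w Q.1 (Ne.symm n2) (Ne.symm n5)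
    obtain ⟨w7, w8⟩ := w Q.2 (Ne.symm n3) (Ne.symm n6)
    refine ⟨o', u', v, fun c c1 c2 c3 c4 => ?_, b1, b2, w5.trans a1, w6.trans a2, fun q hq => ?_⟩
    · obtain ⟨e1, e2⟩ := w c c1 c2
      obtain ⟨e3, e4⟩ := w1 c c3 c4
      exact ⟨e1.trans e3, e2.trans e4⟩
    · rcases List.mem_cons.1 (hp.mem_iff.1 hq) with rfl | hq
      · rw [b1, b2, b3, b4]; exact ⟨rfl, rfl⟩
      rcases List.mem_cons.1 hq with rfl | hq
      · rw [w5, w6, w7, w8, a1, a2, a3, a4]; exact ⟨rfl, rfl⟩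
      · obtain ⟨l1, l2⟩ := hL' q hq
        obtain ⟨e1, e2⟩ := w q.1 (fun e => n4 (e ▸ l1)) (fun e => n7 (e ▸ l1))
        obtain ⟨e3, e4⟩ := w1 q.1 (fun e => n9 (e ▸ l1)) (fun e => n10 (e ▸ l1))
        obtain ⟨e5, e6⟩ := w q.2 (fun e => n4 (e ▸ l2)) (fun e => n7 (e ▸ l2))
        obtain ⟨e7, e8⟩ := w1 q.2 (fun e => n9 (e ▸ l2)) (fun e => n10 (e ▸ l2))
        rw [e1, e2, e3, e4, e5, e6, e7, e8]
        exact r2 q hq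

/-- the two triple points can be removed -/
def Rem2 (S : Set ℕ) (m : ℕ → ℕ) (σ : ℕ → Bool) (χ : ℕ → ℕ) (e : Bool)
    (x x' y y' z z' X X' Y Y' Z Z' : ℕ) : Prop :=
  ∃ m', ME {c | c ∈ S ∧ c ∉ nms (prL x x' y y' z z' X X' Y Y' Z Z')} m' σ χ ∧
    ∀ (G : Type) [Group G] (o u : ℕ → G),
      Vd {c | c ∈ S ∧ c ∉ nms (prL x x' y y' z z' X X' Y Y' Z Z')} m' o u →
      ∃ o' u' : ℕ → G, Vd S m o' u' ∧
        (∀ c, c ∉ nms (prL x x' y y' z z' X X' Y Y' Z Z') → o' c = o c ∧ u' c = u c) ∧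
        Tr e o' u' x x' y y' z z' ∧ Tr (!e) o' u' X X' Y Y' Z Z'

theorem rem2_of {S : Set ℕ} {m : ℕ → ℕ} {σ : ℕ → Bool} {χ : ℕ → ℕ} {e : Bool}
    {x x' y y' z z' X X' Y Y' Z Z' : ℕ} (h : Dat2 S m σ χ x x' y y' z z' X X' Y Y' Z Z')
    {P Q : ℕ × ℕ} {L : List (ℕ × ℕ)}
    (hp : (prL x x' y y' z z' X X' Y Y' Z Z').Perm (P :: Q :: L)) (hP : m P.1 = P.2)
    (hQ : m Q.1 = Q.2)
    (hs : ∀ (G : Type) [Group G] (o₂ u₂ : ℕ → G), ∃ α β γ δ : G, ∀ o' u' : ℕ → G,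
      (∀ c, c ≠ P.1 → c ≠ P.2 → c ≠ Q.1 → c ≠ Q.2 → o' c = o₂ c ∧ u' c = u₂ c) →
      o' P.1 = α → u' P.1 = β → o' Q.1 = γ → u' Q.1 = δ → Tr e o' u' x x' y y' z z') :
    Rem2 S m σ χ e x x' y y' z z' X X' Y Y' Z Z' := by
  obtain ⟨m', h1, h2⟩ := base h.me h.nd h.pr hp hP hQ
  refine ⟨m', h1, fun G _ o u hv => ?_⟩
  obtain ⟨o₂, u₂, h3, h4⟩ := h2 G o u hv
  obtain ⟨α, β, γ, δ, h5⟩ := hs G o₂ u₂
  obtain ⟨o', u', v, w, b1, b2, b3, b4, b5⟩ := h4 α β γ δ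
  have h6 := h5 o' u' w b1 b2 b3 b4
  have hmem : P ∈ prL x x' y y' z z' X X' Y Y' Z Z' ∧ Q ∈ prL x x' y y' z z' X X' Y Y' Z Z' :=
    ⟨hp.mem_iff.2 (by simp), hp.mem_iff.2 (by simp)⟩
  have hnm : ∀ r ∈ prL x x' y y' z z' X X' Y Y' Z Z',
      r.1 ∈ nms (prL x x' y y' z z' X X' Y Y' Z Z') ∧
      r.2 ∈ nms (prL x x' y y' z z' X X' Y Y' Z Z') := by
    intro r hr
    simp only [prL, List.mem_cons, List.not_mem_nil, or_false] at hr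
    rcases hr with rfl | rfl | rfl | rfl | rfl | rfl <;> simp [nms, prL]
  refine ⟨o', u', v, fun c hc => ?_, h6, ?_⟩
  · obtain ⟨e1, e2⟩ := w c (fun e => hc (e ▸ (hnm P hmem.1).1)) (fun e => hc (e ▸ (hnm P hmem.1).2))
      (fun e => hc (e ▸ (hnm Q hmem.2).1)) (fun e => hc (e ▸ (hnm Q hmem.2).2))
    obtain ⟨e3, e4⟩ := h3 c hc
    exact ⟨e1.trans e3, e2.trans e4⟩
  · exact tr_inv (b5 (x, X') (by simp [prL])) (b5 (x', X) (by simp [prL]))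
      (b5 (y, Y') (by simp [prL])) (b5 (y', Y) (by simp [prL])) (b5 (z, Z') (by simp [prL]))
      (b5 (z', Z) (by simp [prL])) h6

end Pool.Agent.Run7.H178.TF
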