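import Pool.Agent.Run7.h178.TF.Vh

/-! Complexes of squares given by the cyclic words around the squares. -/

namespace Pool.Agent.Run7.H178.TF

/-- `Sq a b c d`: the product of the edges `a`, `b`, `c`, `d` is the boundary of a square. -/
structure SqD (X : Type) where
  σ : X → X
  f : X → Bool
  Sq : X → X → X → X → Prop
  invol : ∀ x, σ (σ x) = x
  fσ : ∀ x, f (σ x) = f x
  rot : ∀ a b c d, Sq a b c d → Sq b c d a
  alt : ∀ a b c d, Sq a b c d → f a ≠ f b
  uniq : ∀ a b c d b' c' d', Sq a b c d → Sq a b' c' d' → b = b' ∧ c = c' ∧ d = d'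
  /-- no two squares have a common corner -/
  nob : ∀ a b c d c' d', Sq a b c d → Sq (σ b) (σ a) c' d' → False

namespace SqD

variable {X : Type} (S : SqD X)

/-- the rewriting rules given by the squares -/
def Rl (r b b' r' : X) : Prop :=
  S.f r = true ∧ S.f b = false ∧ (S.Sq r b (S.σ r') (S.σ b') ∨ S.Sq (S.σ b) (S.σ r) b' r')

variable {S}

theorem ne_inj {x y : X} (h : S.σ x = S.σ y) : x = y := by rw [← S.invol x, h, S.invol]

theorem rl_fun {r b b₁ r₁ b₂ r₂ : X} (h₁ : S.Rl r b b₁ r₁) (h₂ : S.Rl r b b₂ r₂) :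
    b₁ = b₂ ∧ r₁ = r₂ := by
  obtain ⟨-, -, h₁ | h₁⟩ := h₁ <;> obtain ⟨-, -, h₂ | h₂⟩ := h₂
  · obtain ⟨-, h3, h4⟩ := S.uniq _ _ _ _ _ _ _ h₁ h₂
    exact ⟨ne_inj h4, ne_inj h3⟩
  · exact (S.nob _ _ _ _ _ _ h₁ h₂).elim
  · exact (S.nob _ _ _ _ _ _ h₂ h₁).elim
  · obtain ⟨-, h3, h4⟩ := S.uniq _ _ _ _ _ _ _ h₁ h₂
    exact ⟨h3, h4⟩

theorem rl_f {r b b' r' : X} (h : S.Rl r b b' r') : S.f b' = false ∧ S.f r' = true := by
  obtain ⟨h1, h2, h | h⟩ := h
  · have a1 := S.alt _ _ _ _ (S.rot _ _ _ _ h)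
    have a2 := S.alt _ _ _ _ (S.rot _ _ _ _ (S.rot _ _ _ _ h))
    rw [S.fσ, h2] at a1
    rw [S.fσ, S.fσ] at a2
    cases e1 : S.f r' <;> cases e2 : S.f b' <;> simp_all
  · have a1 := S.alt _ _ _ _ (S.rot _ _ _ _ h)
    have a2 := S.alt _ _ _ _ (S.rot _ _ _ _ (S.rot _ _ _ _ h))
    rw [S.fσ, h1] at a1
    cases e1 : S.f r' <;> cases e2 : S.f b' <;> simp_all

theorem rl_r2 {r b b' r' : X} (h : S.Rl r b b' r') : S.Rl (S.σ r) b' b (S.σ r') := by
  have hf := rl_f h
  obtain ⟨h1, h2, h⟩ := h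
  refine ⟨by rw [S.fσ, h1], hf.1, ?_⟩
  rcases h with h | h
  · right
    rw [S.invol]
    exact S.rot _ _ _ _ (S.rot _ _ _ _ (S.rot _ _ _ _ h))
  · left
    rw [S.invol]
    exact S.rot _ _ _ _ h

theorem rl_r3 {r b b' r' : X} (h : S.Rl r b b' r') : S.Rl r' (S.σ b) (S.σ b') r := by
  have hf := rl_f h
  obtain ⟨h1, h2, h⟩ := h
  refine ⟨hf.2, by rw [S.fσ, h2], ?_⟩
  rcases h with h | h
  · right
    rw [S.invol]
    exact S.rot _ _ _ _ h
  · left
    rw [S.invol]
    exact S.rot _ _ _ _ (S.rot _ _ _ _ (S.rot _ _ _ _ h))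

variable (S)

open Classical in
/-- the rules as a partial function -/
noncomputable def rule (r b : X) : Option (X × X) :=
  if h : ∃ q : X × X, S.Rl r b q.1 q.2 then some h.choose else none

variable {S}

theorem rule_iff {r b b' r' : X} : S.rule r b = some (b', r') ↔ S.Rl r b b' r' := by
  unfold rule
  constructor
  · intro h
    split_ifs at h with h1
    have h2 := h1.choose_spec
    simp only [Option.some.injEq] at h
    rw [h] at h2
    exact h2
  · intro h
    have h1 : ∃ q : X × X, S.Rl r b q.1 q.2 := ⟨(b', r'), h⟩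
    rw [dif_pos h1]
    obtain ⟨e1, e2⟩ := rl_fun h1.choose_spec h
    exact congrArg some (Prod.ext e1 e2)

variable (S)

/-- the complex of squares -/
noncomputable def vh : VH X where
  σ := S.σ
  f := S.f
  rule := S.rule
  invol := S.invol
  fσ := S.fσ
  r1 r b b' r' h := by
    have h' := rule_iff.1 h
    exact ⟨h'.1, h'.2.1, (rl_f h').1, (rl_f h').2⟩
  r2 r b b' r' h := rule_iff.2 (rl_r2 (rule_iff.1 h))
  r3 r b b' r' h := rule_iff.2 (rl_r3 (rule_iff.1 h))

variable {S}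

/-- the action is compatible with the squares -/
theorem act_sq [DecidableEq X] {a b c d : X} (h : S.Sq a b c d) :
    S.vh.act a * S.vh.act b * S.vh.act c * S.vh.act d = 1 := by
  have key : ∀ {a b c d : X}, S.Sq a b c d → S.f a = true →
      S.vh.act a * S.vh.act b * S.vh.act c * S.vh.act d = 1 := by
    intro a b c d h hf
    have hfb : S.f b = false := by
      have := S.alt _ _ _ _ h
      rw [hf] at this
      simpa using this.symm
    have h1 : S.vh.rule a b = some (S.σ d, S.σ c) :=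
      rule_iff.2 ⟨hf, hfb, Or.inl (by rw [S.invol, S.invol]; exact h)⟩
    have h2 := VH.act_square h1
    have h3 : S.vh.act (S.σ d) = (S.vh.act d)⁻¹ := VH.act_inv (V := S.vh) d
    have h4 : S.vh.act (S.σ c) = (S.vh.act c)⁻¹ := VH.act_inv (V := S.vh) c
    rw [h3, h4] at h2
    rw [h2]
    group
  by_cases hf : S.f a = true
  · exact key h hf
  · have hfb : S.f b = true := by
      have := S.alt _ _ _ _ h
      cases e : S.f b
      · exact absurd (by simp_all) this
      · rfl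
    have h1 := key (S.rot _ _ _ _ h) hfb
    have h2 : S.vh.act a * (S.vh.act b * S.vh.act c * S.vh.act d * S.vh.act a) *
        (S.vh.act a)⁻¹ = 1 := by rw [h1]; group
    rw [← h2]
    group

end SqD

end Pool.Agent.Run7.H178.TF
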