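import Mathlib

/-!
# Complexes of squares with vertical and horizontal edges and one vertex

The squares of a nonpositively curved complex with vertical (`f = true`) and horizontal
(`f = false`) edges give rewriting rules `r b → b' r'` for words in the edges. A word without
backtracks and without corners of squares is not trivial in the fundamental group: the group acts on
the set of these words.
-/

namespace Pool.Agent.Run7.H178.TF

/-- A complex of squares with one vertex: `X` is the set of oriented edges, `σ` reverses the
orientation, `f` tells the vertical from the horizontal edges, `rule r b = some (b', r')` if there is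
a square with `r b = b' r'`. -/
structure VH (X : Type) where
  σ : X → X
  f : X → Bool
  rule : X → X → Option (X × X)
  invol : ∀ x, σ (σ x) = x
  fσ : ∀ x, f (σ x) = f x
  r1 : ∀ r b b' r', rule r b = some (b', r') → f r = true ∧ f b = false ∧ f b' = false ∧ f r' = true
  r2 : ∀ r b b' r', rule r b = some (b', r') → rule (σ r) b' = some (b, σ r')
  r3 : ∀ r b b' r', rule r b = some (b', r') → rule r' (σ b) = some (σ b', r)

namespace VH

variable {X : Type} [DecidableEq X] (V : VH X)

set_option linter.unusedSectionVars false

/-- the edge `x` can be put before the word -/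
def Hd (x : X) : List X → Prop
  | [] => True
  | y :: _ => y ≠ V.σ x ∧ V.rule x y = none

/-- words without backtracks and corners -/
def Irr : List X → Prop
  | [] => True
  | x :: t => V.Hd x t ∧ Irr t

/-- multiplication by a horizontal edge -/
def insB (b : X) : List X → List X
  | [] => [b]
  | x :: t => if x = V.σ b then t else b :: x :: t

/-- multiplication by a vertical edge -/
def insR : X → List X → List X
  | r, [] => [r]
  | r, x :: t => if x = V.σ r then t else
      match V.rule r x with
      | some (b', r') => V.insB b' (insR r' t)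
      | none => r :: x :: t

variable {V}

theorem insB_self (b : X) (t : List X) : V.insB b (V.σ b :: t) = t := by simp [insB]

theorem insB_ne {b x : X} (t : List X) (h : x ≠ V.σ b) : V.insB b (x :: t) = b :: x :: t := by
  simp [insB, h]

theorem insR_self (r : X) (t : List X) : V.insR r (V.σ r :: t) = t := by simp [insR]

theorem insR_some {r x b' r' : X} (t : List X) (h : x ≠ V.σ r) (h' : V.rule r x = some (b', r')) :
    V.insR r (x :: t) = V.insB b' (V.insR r' t) := by
  simp [insR, h, h']

theorem insR_none {r x : X} (t : List X) (h : x ≠ V.σ r) (h' : V.rule r x = none) :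
    V.insR r (x :: t) = r :: x :: t := by
  simp [insR, h, h']

theorem rule_none_of_blue {b : X} (h : V.f b = false) (x : X) : V.rule b x = none := by
  rcases h' : V.rule b x with _ | ⟨c, d⟩
  · rfl
  · exact absurd (V.r1 _ _ _ _ h').1 (by rw [h]; simp)

theorem hd_insB {b : X} {w : List X} (hb : V.f b = false) (h : ∀ t, w ≠ V.σ b :: t) : V.Hd b w := by
  cases w with
  | nil => trivial
  | cons y t =>
    refine ⟨fun e => h t (by rw [e]), rule_none_of_blue hb y⟩

theorem insB_hd {b : X} {w : List X} (h : ∀ t, w ≠ V.σ b :: t) : V.insB b w = b :: w := by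
  cases w with
  | nil => rfl
  | cons y t => exact insB_ne t fun e => h t (by rw [e])

theorem irr_insB {b : X} {w : List X} (hb : V.f b = false) (hw : V.Irr w) : V.Irr (V.insB b w) := by
  by_cases h : ∃ t, w = V.σ b :: t
  · obtain ⟨t, rfl⟩ := h
    rw [insB_self]
    exact hw.2
  · push Not at h
    rw [insB_hd h]
    exact ⟨hd_insB hb h, hw⟩

/-- a word starting with `x` which is irreducible does not continue with the inverse -/
theorem irr_tail {x : X} {t : List X} (h : V.Irr (x :: t)) : ∀ t', t ≠ V.σ x :: t' := by
  rintro t' rfl
  exact h.1.1 rfl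

theorem insB_insB {b : X} {w : List X} (hw : V.Irr w) : V.insB (V.σ b) (V.insB b w) = w := by
  by_cases h : ∃ t, w = V.σ b :: t
  · obtain ⟨t, rfl⟩ := h
    rw [insB_self, insB_hd (irr_tail hw)]
  · push Not at h
    rw [insB_hd h]
    have := insB_self (V := V) (V.σ b) w
    rwa [V.invol] at this

theorem insB_insB' {b : X} {w : List X} (hw : V.Irr w) : V.insB b (V.insB (V.σ b) w) = w := by
  have := insB_insB (V := V) (b := V.σ b) hw
  rwa [V.invol] at this

theorem ne_of_f {x y : X} (h : V.f x ≠ V.f y) : x ≠ V.σ y := by
  rintro rfl
  exact h (V.fσ y)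

theorem irr_insR : ∀ (w : List X) (r : X), V.f r = true → V.Irr w → V.Irr (V.insR r w)
  | [], r, _, _ => ⟨trivial, trivial⟩
  | x :: t, r, hr, hw => by
    by_cases h : x = V.σ r
    · subst h
      rw [insR_self]
      exact hw.2
    · rcases h' : V.rule r x with _ | ⟨b', r'⟩
      · rw [insR_none t h h']
        exact ⟨⟨h, h'⟩, hw⟩
      · obtain ⟨-, -, h3, h4⟩ := V.r1 _ _ _ _ h'
        rw [insR_some t h h']
        exact irr_insB h3 (irr_insR t r' h4 hw.2)

/-- the relation of a square -/
theorem square {r b b' r' : X} (h : V.rule r b = some (b', r')) {w : List X} (hw : V.Irr w) :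
    V.insR r (V.insB b w) = V.insB b' (V.insR r' w) := by
  obtain ⟨f1, f2, f3, f4⟩ := V.r1 _ _ _ _ h
  by_cases h1 : ∃ t, w = V.σ b :: t
  · obtain ⟨t, rfl⟩ := h1
    rw [insB_self, insR_some t (ne_of_f (by rw [V.fσ, f2, f4]; simp)) (V.r3 _ _ _ _ h)]
    exact (insB_insB' (irr_insR t r f1 hw.2)).symm
  · push Not at h1
    rw [insB_hd h1, insR_some w (ne_of_f (by rw [f2, f1]; simp)) h]

theorem insR_insR : ∀ (n : ℕ) (w : List X) (r : X), w.length ≤ n → V.f r = true → V.Irr w →
    V.insR (V.σ r) (V.insR r w) = w := by
  intro n
  induction n with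
  | zero =>
    intro w r hn hr hw
    have : w = [] := List.length_eq_zero_iff.1 (by omega)
    subst this
    have h : V.insR r ([] : List X) = [r] := rfl
    have := insR_self (V := V) (V.σ r) []
    rw [h]
    rwa [V.invol] at this
  | succ n ih =>
    intro w r hn hr hw
    cases w with
    | nil =>
      have h : V.insR r ([] : List X) = [r] := rfl
      have := insR_self (V := V) (V.σ r) []
      rw [h]
      rwa [V.invol] at this
    | cons x t =>
      have hn' : t.length ≤ n := by simpa using hn
      by_cases h : x = V.σ r
      · subst h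
        rw [insR_self]
        cases t with
        | nil => rfl
        | cons y t' => exact insR_none t' hw.1.1 hw.1.2
      · rcases h' : V.rule r x with _ | ⟨b', r'⟩
        · rw [insR_none t h h']
          have := insR_self (V := V) (V.σ r) (x :: t)
          rwa [V.invol] at this
        · obtain ⟨f1, f2, f3, f4⟩ := V.r1 _ _ _ _ h'
          rw [insR_some t h h']
          have hv := irr_insR t r' f4 hw.2
          have ih' := ih t r' hn' f4 hw.2
          have k2 := V.r2 _ _ _ _ h'
          by_cases h1 : ∃ v, V.insR r' t = V.σ b' :: v
          · obtain ⟨v, e⟩ := h1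
            rw [e] at hv ih' ⊢
            rw [insB_self]
            have k3 := V.r3 _ _ _ _ k2
            rw [insR_some v (ne_of_f (by rw [V.fσ, V.fσ, f3, f4]; simp)) k3] at ih'
            have hu : V.Irr (V.insR (V.σ r) v) := irr_insR v _ (by rw [V.fσ, hr]) hv.2
            have h2 := insB_insB' (V := V) (b := x) hu
            rw [ih'] at h2
            rw [← h2]
            exact insB_hd (irr_tail hw)
          · push Not at h1
            rw [insB_hd h1, insR_some _ (ne_of_f (by rw [V.fσ, hr, f3]; simp)) k2, ih']
            exact insB_hd (irr_tail hw)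

variable (V)

/-- multiplication by an edge -/
def ins (x : X) (w : List X) : List X := if V.f x = true then V.insR x w else V.insB x w

variable {V}

theorem irr_ins {x : X} {w : List X} (hw : V.Irr w) : V.Irr (V.ins x w) := by
  unfold ins
  split_ifs with h
  · exact irr_insR w x h hw
  · exact irr_insB (by simpa using h) hw

theorem ins_ins {x : X} {w : List X} (hw : V.Irr w) : V.ins (V.σ x) (V.ins x w) = w := by
  unfold ins
  rw [V.fσ]
  split_ifs with h
  · exact insR_insR _ w x le_rfl h hw
  · exact insB_insB hw

variable (V)

/-- the action of an edge on the irreducible words -/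
def act (x : X) : Equiv.Perm {w : List X // V.Irr w} where
  toFun w := ⟨V.ins x w.1, irr_ins w.2⟩
  invFun w := ⟨V.ins (V.σ x) w.1, irr_ins w.2⟩
  left_inv w := Subtype.ext (ins_ins w.2)
  right_inv w := Subtype.ext (by
    have := ins_ins (V := V) (x := V.σ x) w.2
    rwa [V.invol] at this)

variable {V}

theorem act_inv (x : X) : V.act (V.σ x) = (V.act x)⁻¹ := by
  ext w
  rfl

theorem act_square {r b b' r' : X} (h : V.rule r b = some (b', r')) :
    V.act r * V.act b = V.act b' * V.act r' := by
  obtain ⟨f1, f2, f3, f4⟩ := V.r1 _ _ _ _ h
  ext1 w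
  refine Subtype.ext ?_
  change V.ins r (V.ins b w.1) = V.ins b' (V.ins r' w.1)
  unfold ins
  rw [if_pos f1, if_neg (by rw [f2]; simp), if_neg (by rw [f3]; simp), if_pos f4]
  exact square h w.2

/-- an irreducible word applied to the empty word -/
theorem prod_irr : ∀ (w : List X) (hw : V.Irr w),
    ((w.map V.act).prod ⟨[], trivial⟩ : {w : List X // V.Irr w}).1 = w
  | [], _ => rfl
  | x :: t, hw => by
    have ih := prod_irr t hw.2
    rw [List.map_cons, List.prod_cons, Equiv.Perm.mul_apply]
    change V.ins x ((t.map V.act).prod ⟨[], trivial⟩ : {w : List X // V.Irr w}).1 = x :: t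
    rw [ih]
    unfold ins
    split_ifs with h
    · cases t with
      | nil => rfl
      | cons y t' => exact insR_none t' hw.1.1 hw.1.2
    · exact insB_hd (irr_tail hw)

theorem eq_nil_of_prod {w : List X} (hw : V.Irr w) (h : (w.map V.act).prod = 1) : w = [] := by
  have := prod_irr w hw
  rw [h] at this
  exact this.symm

/-- a word which is not irreducible contains a backtrack or a corner -/
theorem not_irr {w : List X} (h : ¬V.Irr w) : ∃ a c x y, w = a ++ x :: y :: c ∧
    (y = V.σ x ∨ V.rule x y ≠ none) := by
  induction w with
  | nil => exact absurd trivial h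
  | cons x t ih =>
    by_cases h1 : V.Irr t
    · cases t with
      | nil => exact absurd ⟨trivial, trivial⟩ h
      | cons y t =>
        refine ⟨[], t, x, y, rfl, ?_⟩
        by_contra h2
        push Not at h2
        exact h ⟨h2, h1⟩
    · obtain ⟨a, c, x', y', rfl, h2⟩ := ih h1
      exact ⟨x :: a, c, x', y', rfl, h2⟩

end VH

end Pool.Agent.Run7.H178.TF
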